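import Mathlib

set_option autoImplicit false

/-! Matchings as involutions, and the transitivity lemma behind Gallai's lemma. -/

namespace Pool.Agent.H39.TwoCosets

variable {V : Type*}

/-- A matching of the relation `adj`, as an involution; the fixed points are the uncovered
vertices. -/
def IsM (adj : V → V → Prop) (f : V → V) : Prop :=
  (∀ v, f (f v) = v) ∧ ∀ v, f v ≠ v → adj v (f v)

/-- uncovered vertices -/
def unc (f : V → V) : Set V := {v | f v = v}

/-- maximum matchings -/
def IsMax (adj : V → V → Prop) (f : V → V) : Prop :=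
  IsM adj f ∧ ∀ g, IsM adj g → (unc f).ncard ≤ (unc g).ncard

/-- agreement set -/
def agr (f g : V → V) : Set V := {v | f v = g v ∧ f v ≠ v}

theorem isM_id (adj : V → V → Prop) : IsM adj id :=
  ⟨fun _ => rfl, fun v h => absurd rfl h⟩

theorem exists_isMax (adj : V → V → Prop) : ∃ f, IsMax adj f := by
  classical
  have h : ∃ n, ∃ f, IsM adj f ∧ (unc f).ncard = n := ⟨_, id, isM_id adj, rfl⟩
  obtain ⟨f, hf, hn⟩ := Nat.find_spec h
  refine ⟨f, hf, fun g hg => ?_⟩
  rw [hn]
  exact Nat.find_min' h ⟨g, hg, rfl⟩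

/-- Joining two adjacent uncovered vertices. -/
theorem isM_join [Finite V] {adj : V → V → Prop} (hs : ∀ u v, adj u v → adj v u) {f : V → V}
    (hf : IsM adj f) {x y : V} (hxy : x ≠ y) (hx : f x = x) (hy : f y = y) (ha : adj x y) :
    ∃ g, IsM adj g ∧ (unc g).ncard < (unc f).ncard := by
  classical
  refine ⟨fun t => if t = x then y else if t = y then x else f t, ⟨fun v => ?_, fun v hv => ?_⟩, ?_⟩
  · by_cases h1 : v = x
    · subst h1
      simp [hxy.symm]
    · by_cases h2 : v = y
      · subst h2
        simp [h1]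
      · have h3 : f v ≠ x := fun h => h1 (by rw [← hf.1 v, h, hx])
        have h4 : f v ≠ y := fun h => h2 (by rw [← hf.1 v, h, hy])
        simp [h1, h2, h3, h4, hf.1 v]
  · by_cases h1 : v = x
    · subst h1
      simpa using ha
    · by_cases h2 : v = y
      · subst h2
        simpa [h1] using hs _ _ ha
      · simp only [h1, h2, if_false] at hv ⊢
        exact hf.2 v hv
  · apply Set.ncard_lt_ncard _ (Set.toFinite _)
    refine ⟨fun v hv => ?_, fun h => ?_⟩
    · simp only [unc, Set.mem_ofPred_eq] at hv ⊢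
      by_cases h1 : v = x
      · subst h1; exact hx
      · by_cases h2 : v = y
        · subst h2; exact hy
        · simpa [h1, h2] using hv
    · have := h (show x ∈ unc f from hx)
      simp only [unc, Set.mem_ofPred_eq, if_true] at this
      exact hxy this.symm

/-- No maximum matching misses both `u` and `v`. -/
def Rel (adj : V → V → Prop) (u v : V) : Prop :=
  ∀ f, IsMax adj f → f u = u → f v = v → u = v

theorem rel_of_adj [Finite V] {adj : V → V → Prop} (hs : ∀ u v, adj u v → adj v u) {u v : V}
    (h : adj u v) : Rel adj u v := by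
  intro f hf hu hv
  by_contra hne
  obtain ⟨g, hg, hlt⟩ := isM_join hs hf.1 hne hu hv h
  exact absurd (hf.2 g hg) (not_le.2 hlt)

theorem Rel.trans' [Finite V] {adj : V → V → Prop} (hs : ∀ u v, adj u v → adj v u) {u v w : V}
    (hmiss : ∃ f, IsMax adj f ∧ f v = v) (h1 : Rel adj u v) (h2 : Rel adj v w) :
    Rel adj u w := by
  classical
  intro M hM hu hw
  by_contra huw
  -- choose `N` missing `v` with the largest agreement with `M`
  obtain ⟨N, ⟨hN, hNv⟩, hmax⟩ : ∃ N, (IsMax adj N ∧ N v = v) ∧
      ∀ N', (IsMax adj N' ∧ N' v = v) → (agr M N').ncard ≤ (agr M N).ncard := by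
    obtain ⟨f0, hf0⟩ := hmiss
    have hb : ∃ n, ∀ N', (IsMax adj N' ∧ N' v = v) → (agr M N').ncard ≤ n :=
      ⟨Nat.card V, fun N' _ => by
        rw [← Set.ncard_univ]; exact Set.ncard_le_ncard (Set.subset_univ _) (Set.toFinite _)⟩
    have hne : (Set.range fun N' : {N' // IsMax adj N' ∧ N' v = v} => (agr M N'.1).ncard).Nonempty :=
      ⟨_, ⟨f0, hf0⟩, rfl⟩
    have hbd : BddAbove
        (Set.range fun N' : {N' // IsMax adj N' ∧ N' v = v} => (agr M N'.1).ncard) := by
      obtain ⟨n, hn⟩ := hb
      exact ⟨n, by rintro _ ⟨N', rfl⟩; exact hn _ N'.2⟩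
    obtain ⟨N, hN⟩ := Nat.sSup_mem hne hbd
    refine ⟨N.1, N.2, fun N' hN' => ?_⟩
    have := le_csSup hbd (⟨⟨N', hN'⟩, rfl⟩ : (agr M N').ncard ∈ Set.range fun N' :
      {N' // IsMax adj N' ∧ N' v = v} => (agr M N'.1).ncard)
    rw [← hN] at this
    exact this
  have huv : u ≠ v := by
    rintro rfl
    exact huw (h2 M hM hu hw)
  have hvw : v ≠ w := by
    rintro rfl
    exact huw (h1 M hM hu hw)
  have hMv : M v ≠ v := fun h => huv (h1 M hM hu h)
  have hNu : N u ≠ u := fun h => huv (h1 N hN h hNv)
  have hNw : N w ≠ w := fun h => hvw (h2 N hN hNv h)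
  -- a vertex `x ≠ v` missed by `N` and covered by `M`
  obtain ⟨x, hxN, hxM, hxv⟩ : ∃ x, N x = x ∧ M x ≠ x ∧ x ≠ v := by
    by_contra hcon
    push Not at hcon
    have hsub : unc N ⊆ insert v (unc M \ {u, w}) := by
      intro t ht
      by_cases htv : t = v
      · exact Or.inl htv
      · right
        have hMt : M t = t := by
          by_contra h
          exact htv (hcon t ht h)
        refine ⟨hMt, ?_⟩
        rintro (h | h)
        · exact hNu (by rw [← h]; exact ht)
        · exact hNw (by rw [← (Set.mem_singleton_iff.1 h)]; exact ht)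
    have hle := Set.ncard_le_ncard hsub (Set.toFinite _)
    have hins := Set.ncard_insert_le v (unc M \ {u, w})
    have hpair : ({u, w} : Set V) ⊆ unc M := by
      rintro t (h | h)
      · rw [h]; exact hu
      · rw [Set.mem_singleton_iff.1 h]; exact hw
    have hdiff := Set.ncard_sdiff_add_ncard_of_subset hpair (Set.toFinite _)
    rw [Set.ncard_pair huw] at hdiff
    have hMN := hM.2 N hN.1
    omega
  set y := M x with hy
  have hyx : y ≠ x := hxM
  have hMy : M y = x := hM.1.1 x
  have hxy_adj : adj x y := hM.1.2 x hxM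
  have hNy : N y ≠ y := by
    intro h
    obtain ⟨g, hg, hlt⟩ := isM_join hs hN.1 hyx.symm hxN h hxy_adj
    exact absurd (hN.2 g hg) (not_le.2 hlt)
  set z := N y with hz
  have hNz : N z = y := hN.1.1 y
  have hzy : z ≠ y := hNy
  have hzx : z ≠ x := fun h => hyx (by rw [← hNz, h, hxN])
  have hvy : v ≠ y := fun h => hNy (by rw [hz, ← h]; exact hNv)
  have hvz : v ≠ z := fun h => hzy (by rw [← h, ← hNv, h, hNz])
  let N' : V → V := fun t => if t = x then y else if t = y then x else if t = z then z else N t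
  have hN'x : N' x = y := by simp [N']
  have hN'y : N' y = x := by simp [N', hyx]
  have hN'z : N' z = z := by simp [N', hzx, hzy]
  have hN'o : ∀ t, t ≠ x → t ≠ y → t ≠ z → N' t = N t := fun t h1 h2 h3 => by
    simp [N', h1, h2, h3]
  have hstay : ∀ t, t ≠ x → t ≠ y → t ≠ z → N t ≠ x ∧ N t ≠ y ∧ N t ≠ z := by
    intro t h1 h2 h3
    refine ⟨fun h => h1 ?_, fun h => h3 ?_, fun h => h2 ?_⟩
    · rw [← hN.1.1 t, h, hxN]
    · rw [← hN.1.1 t, h]
    · rw [← hN.1.1 t, h, hNz]
  have hN'M : IsM adj N' := by
    refine ⟨fun t => ?_, fun t ht => ?_⟩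
    · by_cases e1 : t = x
      · rw [e1, hN'x, hN'y]
      · by_cases e2 : t = y
        · rw [e2, hN'y, hN'x]
        · by_cases e3 : t = z
          · rw [e3, hN'z, hN'z]
          · obtain ⟨s1, s2, s3⟩ := hstay t e1 e2 e3
            rw [hN'o t e1 e2 e3, hN'o _ s1 s2 s3, hN.1.1 t]
    · by_cases e1 : t = x
      · rw [e1, hN'x]; exact hxy_adj
      · by_cases e2 : t = y
        · rw [e2, hN'y]; exact hs _ _ hxy_adj
        · by_cases e3 : t = z
          · exact absurd (by rw [e3, hN'z]) ht
          · rw [hN'o t e1 e2 e3] at ht ⊢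
            exact hN.1.2 t ht
  have hunc : (unc N').ncard = (unc N).ncard := by
    have e : unc N' = insert z (unc N \ {x}) := by
      ext t
      simp only [unc, Set.mem_ofPred_eq, Set.mem_insert_iff, Set.mem_sdiff, Set.mem_singleton_iff]
      by_cases e1 : t = x
      · rw [e1, hN'x]
        constructor
        · intro h; exact absurd h hyx
        · rintro (h | ⟨_, h⟩)
          · exact absurd h hzx.symm
          · exact absurd rfl h
      · by_cases e2 : t = y
        · rw [e2, hN'y]
          constructor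
          · intro h; exact absurd h hyx.symm
          · rintro (h | ⟨h, _⟩)
            · exact absurd h hzy.symm
            · exact absurd h hNy
        · by_cases e3 : t = z
          · rw [e3, hN'z]; simp
          · rw [hN'o t e1 e2 e3]
            simp [e1, e3]
    rw [e, Set.ncard_insert_of_notMem (by
      rintro ⟨h, _⟩
      exact hzy.symm (by rw [← hNz]; exact h)) (Set.toFinite _),
      Set.ncard_sdiff_singleton_add_one (show x ∈ unc N from hxN) (Set.toFinite _)]
  have hN'max : IsMax adj N' := ⟨hN'M, fun g hg => by rw [hunc]; exact hN.2 g hg⟩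
  have hN'v : N' v = v := by rw [hN'o v hxv.symm hvy hvz, hNv]
  have hlt : (agr M N).ncard < (agr M N').ncard := by
    apply Set.ncard_lt_ncard _ (Set.toFinite _)
    refine ⟨fun t ht => ?_, fun h => ?_⟩
    · obtain ⟨ht1, ht2⟩ := ht
      have e1 : t ≠ x := by
        rintro rfl
        rw [hxN] at ht1
        exact ht2 ht1
      have e2 : t ≠ y := by
        intro e
        rw [e, hMy] at ht1
        exact hzx ht1.symm
      have e3 : t ≠ z := by
        intro e
        rw [e, hNz] at ht1
        exact hzx (by rw [← hM.1.1 z, ht1, hMy])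
      exact ⟨by rw [hN'o t e1 e2 e3]; exact ht1, ht2⟩
    · have hx' : x ∈ agr M N' := ⟨by rw [hN'x], hxM⟩
      have := (h hx').1
      rw [hxN] at this
      exact hxM this
  exact absurd (hmax N' ⟨hN'max, hN'v⟩) (not_le.2 hlt)

/-- Gallai: if every vertex is missed by a maximum matching, the relation is connected and
symmetric, and the number of vertices is even, there is a perfect matching. -/
theorem exists_perfect [Finite V] {adj : V → V → Prop} (hs : ∀ u v, adj u v → adj v u)
    (hconn : ∀ u v, Relation.ReflTransGen adj u v) (heven : Even (Nat.card V))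
    (hall : ∀ u v : V, ∀ f, IsMax adj f → f u = u → ∃ g, IsMax adj g ∧ g v = v) :
    ∃ f, IsM adj f ∧ ∀ v, f v ≠ v := by
  classical
  obtain ⟨f, hf⟩ := exists_isMax adj
  refine ⟨f, hf.1, fun v0 hv0 => ?_⟩
  have hmiss : ∀ v, ∃ g, IsMax adj g ∧ g v = v := fun v => hall v0 v f hf hv0
  have hrel : ∀ u v, Rel adj u v := by
    intro u v
    induction hconn u v with
    | refl => exact fun _ _ _ _ => rfl
    | tail _ h ih => exact Rel.trans' hs (hmiss _) ih (rel_of_adj hs h)
  have := Fintype.ofFinite V
  have hinv : Function.Involutive f := hf.1.1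
  let σ : Equiv.Perm V := hinv.toPerm
  have hσ : σ ^ 2 ^ 1 = 1 := by
    ext t
    simp [pow_two, σ, hf.1.1 t]
  have : Fact (Nat.Prime 2) := ⟨Nat.prime_two⟩
  have hdvd : 2 ∣ Fintype.card V := by
    rw [← Nat.card_eq_fintype_card]; exact heven.two_dvd
  obtain ⟨b, hb, hne⟩ := Equiv.Perm.exists_fixed_point_of_prime' hdvd hσ (a := v0) hv0
  exact hne (hrel b v0 f hf hb hv0)

end Pool.Agent.H39.TwoCosets
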