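import Mathlib
import Pool.Agent.H39.TwoCosets.Gallai

set_option autoImplicit false

open scoped Pointwise

namespace Pool.Agent.H39.TwoCosets

/-- `G = AB` with `|A| = a` and `|B| = b`. -/
def Fac (G : Type*) [Group G] (a b : ℕ) : Prop :=
  ∃ A B : Set G, A.ncard = a ∧ B.ncard = b ∧ A * B = Set.univ

section
variable {G : Type*} [Group G] [Finite G]

theorem ncard_mul_le (A B : Set G) : (A * B).ncard ≤ A.ncard * B.ncard := by
  have h : A * B = (fun p : G × G => p.1 * p.2) '' (A ×ˢ B) := by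
    ext x
    simp [Set.mem_mul]
  rw [h, ← Set.ncard_prod]
  exact Set.ncard_image_le (Set.toFinite _)

theorem Fac.of_cover {a b : ℕ} (hab : a * b = Nat.card G) {A B : Set G} (hA : A.ncard ≤ a)
    (hB : B.ncard ≤ b) (h : A * B = Set.univ) : Fac G a b := by
  have h1 : Nat.card G ≤ A.ncard * B.ncard := by
    rw [← Set.ncard_univ, ← h]; exact ncard_mul_le A B
  have hpos : 0 < Nat.card G := Nat.card_pos
  have hA0 : 0 < A.ncard := by
    rcases Nat.eq_zero_or_pos A.ncard with h0 | h0
    · rw [h0] at h1; omega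
    · exact h0
  have hb0 : 0 < b := by
    rcases Nat.eq_zero_or_pos b with h0 | h0
    · rw [h0] at hab; omega
    · exact h0
  have h2 : A.ncard * B.ncard ≤ A.ncard * b := Nat.mul_le_mul_left _ hB
  have h3 : A.ncard * b ≤ a * b := Nat.mul_le_mul_right _ hA
  have e1 : A.ncard = a := Nat.eq_of_mul_eq_mul_right hb0 (by omega)
  have e2 : B.ncard = b := Nat.eq_of_mul_eq_mul_left hA0 (by omega)
  exact ⟨A, B, e1, e2, h⟩

theorem Fac.symm {a b : ℕ} (h : Fac G a b) : Fac G b a := by
  obtain ⟨A, B, hA, hB, hAB⟩ := h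
  refine ⟨B⁻¹, A⁻¹, ?_, ?_, ?_⟩
  · rw [Set.ncard_inv, hB]
  · rw [Set.ncard_inv, hA]
  · rw [← mul_inv_rev, hAB]
    exact Set.inv_univ

/-- lifting from a subgroup -/
theorem Fac.lift {a b : ℕ} (L : Subgroup G) (hab : a * b = Nat.card L) (h : Fac L a b) :
    Fac G (L.index * a) b := by
  obtain ⟨A, B, hA, hB, hAB⟩ := h
  obtain ⟨T, hT, -⟩ := L.exists_isComplement_left 1
  have hTc : T.ncard = L.index := hT.ncard_left
  refine Fac.of_cover (A := T * ((fun x : L => (x : G)) '' A))
    (B := (fun x : L => (x : G)) '' B) ?_ ?_ ?_ ?_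
  · rw [mul_assoc, hab, L.index_mul_card]
  · refine (ncard_mul_le _ _).trans ?_
    rw [hTc, ← hA]
    exact Nat.mul_le_mul_left _ (Set.ncard_image_le (Set.toFinite _))
  · rw [← hB]
    exact Set.ncard_image_le (Set.toFinite _)
  · rw [Set.eq_univ_iff_forall]
    intro g
    obtain ⟨⟨t, l⟩, htl⟩ := hT.surjective g
    have hl : (l : L) ∈ A * B := by rw [hAB]; trivial
    obtain ⟨x, hx, z, hz, hxz⟩ := hl
    refine ⟨t * x, ⟨t, t.2, x, ⟨x, hx, rfl⟩, rfl⟩, z, ⟨z, hz, rfl⟩, ?_⟩
    have : ((l : L) : G) = x * z := by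
      have := congrArg (fun w : L => (w : G)) hxz
      simpa using this.symm
    simp only
    rw [mul_assoc, ← this]
    exact htl

/-- the graph on the left cosets of `H` -/
def cadj (H : Subgroup G) (y : G) (u v : G ⧸ H) : Prop :=
  ∃ g : G, (u = (g : G ⧸ H) ∧ v = ((g * y : G) : G ⧸ H)) ∨
    (v = (g : G ⧸ H) ∧ u = ((g * y : G) : G ⧸ H))

theorem cadj_symm (H : Subgroup G) (y : G) (u v : G ⧸ H) (h : cadj H y u v) : cadj H y v u := by
  obtain ⟨g, h⟩ := h
  exact ⟨g, h.symm⟩

theorem cadj_smul (H : Subgroup G) (y k : G) (u v : G ⧸ H) (h : cadj H y u v) :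
    cadj H y (k • u) (k • v) := by
  obtain ⟨g, ⟨h1, h2⟩ | ⟨h1, h2⟩⟩ := h
  · exact ⟨k * g, Or.inl ⟨by rw [h1]; rfl, by rw [h2, mul_assoc]; rfl⟩⟩
  · exact ⟨k * g, Or.inr ⟨by rw [h1]; rfl, by rw [h2, mul_assoc]; rfl⟩⟩

theorem conn (H : Subgroup G) (y : G) (hgen : Subgroup.closure ((H : Set G) ∪ {y}) = ⊤)
    (u v : G ⧸ H) : Relation.ReflTransGen (cadj H y) u v := by
  have hsymm : ∀ {u v : G ⧸ H}, Relation.ReflTransGen (cadj H y) u v →
      Relation.ReflTransGen (cadj H y) v u := by
    intro u v h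
    induction h with
    | refl => exact Relation.ReflTransGen.refl
    | tail _ h ih => exact ih.head (cadj_symm H y _ _ h)
  have hsmul : ∀ (k : G) {u v : G ⧸ H}, Relation.ReflTransGen (cadj H y) u v →
      Relation.ReflTransGen (cadj H y) (k • u) (k • v) := by
    intro k u v h
    induction h with
    | refl => exact Relation.ReflTransGen.refl
    | tail _ h ih => exact ih.tail (cadj_smul H y k _ _ h)
  have key : ∀ g : G, Relation.ReflTransGen (cadj H y) ((1 : G) : G ⧸ H) (g : G ⧸ H) := by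
    intro g
    have hg : g ∈ Subgroup.closure ((H : Set G) ∪ {y}) := by rw [hgen]; trivial
    induction hg using Subgroup.closure_induction with
    | mem x hx =>
      rcases hx with hx | hx
      · have : ((1 : G) : G ⧸ H) = (x : G ⧸ H) := by
          rw [QuotientGroup.eq]
          simpa using hx
        rw [this]
      · have hx' : x = y := hx
        rw [hx']
        exact Relation.ReflTransGen.single ⟨1, Or.inl ⟨rfl, by rw [one_mul]⟩⟩
    | one => exact Relation.ReflTransGen.refl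
    | mul a b _ _ iha ihb =>
      have := hsmul a ihb
      have e1 : a • ((1 : G) : G ⧸ H) = (a : G ⧸ H) := by
        change (((a * 1 : G)) : G ⧸ H) = _
        rw [mul_one]
      rw [e1] at this
      exact iha.trans this
    | inv a _ iha =>
      have := hsmul a⁻¹ iha
      have e1 : a⁻¹ • ((1 : G) : G ⧸ H) = ((a⁻¹ : G) : G ⧸ H) := by
        change (((a⁻¹ * 1 : G)) : G ⧸ H) = _
        rw [mul_one]
      have e2 : a⁻¹ • ((a : G) : G ⧸ H) = ((1 : G) : G ⧸ H) := by
        change (((a⁻¹ * a : G)) : G ⧸ H) = _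
        rw [inv_mul_cancel]
      rw [e1, e2] at this
      exact hsymm this
  obtain ⟨g, rfl⟩ := QuotientGroup.mk_surjective u
  obtain ⟨k, rfl⟩ := QuotientGroup.mk_surjective v
  exact (hsymm (key g)).trans (key k)

theorem hall_smul (H : Subgroup G) (y : G) (u v : G ⧸ H) (f : G ⧸ H → G ⧸ H)
    (hf : IsMax (cadj H y) f) (hu : f u = u) : ∃ g, IsMax (cadj H y) g ∧ g v = v := by
  obtain ⟨k, hk⟩ := MulAction.exists_smul_eq G u v
  have huv : k⁻¹ • v = u := by rw [← hk, inv_smul_smul]
  refine ⟨fun t => k • f (k⁻¹ • t), ⟨⟨fun t => ?_, fun t ht => ?_⟩, fun g hg => ?_⟩, ?_⟩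
  · simp only [inv_smul_smul, hf.1.1, smul_inv_smul]
  · have hne : f (k⁻¹ • t) ≠ k⁻¹ • t := fun h => ht (by simp only [h, smul_inv_smul])
    have := cadj_smul H y k _ _ (hf.1.2 _ hne)
    rwa [smul_inv_smul] at this
  · have e : unc (fun t => k • f (k⁻¹ • t)) = (fun t : G ⧸ H => k • t) '' unc f := by
      ext t
      simp only [unc, Set.mem_ofPred_eq, Set.mem_image]
      constructor
      · intro h
        refine ⟨k⁻¹ • t, ?_, smul_inv_smul k t⟩
        rw [eq_inv_smul_iff]
        exact h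
      · rintro ⟨s, hs, rfl⟩
        rw [inv_smul_smul, hs]
    rw [e, Set.ncard_image_of_injective _ (MulAction.injective k)]
    exact hf.2 g hg
  · simp only [huv, hu, hk]

theorem fac_two (H : Subgroup G) (y : G) (hgen : Subgroup.closure ((H : Set G) ∪ {y}) = ⊤)
    (heven : Even H.index) {b : ℕ} (hb : b * (2 * Nat.card H) = Nat.card G) :
    Fac G b (2 * Nat.card H) := by
  classical
  obtain ⟨f, hf, hperf⟩ := exists_perfect (cadj_symm H y) (conn H y hgen)
    (by rw [← Subgroup.index_eq_card]; exact heven) (hall_smul H y)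
  obtain ⟨e⟩ : Nonempty (G ⧸ H ≃ Fin (Nat.card (G ⧸ H))) := ⟨Finite.equivFin _⟩
  have hadj : ∀ u, cadj H y u (f u) := fun u => hf.2 u (hperf u)
  choose γ hγ using hadj
  let R : Set (G ⧸ H) := {u | e u < e (f u)}
  have hfin : Function.Injective f := fun a b h => by rw [← hf.1 a, h, hf.1 b]
  have himg : f '' R = Rᶜ := by
    ext t
    simp only [R, Set.mem_image, Set.mem_ofPred_eq, Set.mem_compl_iff, not_lt]
    constructor
    · rintro ⟨u, hu, rfl⟩
      rw [hf.1 u]
      exact hu.le
    · intro h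
      refine ⟨f t, ?_, hf.1 t⟩
      rw [hf.1 t]
      exact lt_of_le_of_ne h (fun h' => hperf t (e.injective h'))
  have hR : 2 * R.ncard = H.index := by
    have h1 := Set.ncard_add_ncard_compl R
    rw [← himg, Set.ncard_image_of_injective _ hfin, ← Subgroup.index_eq_card] at h1
    omega
  have hbR : b = R.ncard := by
    have h1 := H.index_mul_card
    rw [← hR] at h1
    have hpos : 0 < 2 * Nat.card H := by
      have : 0 < Nat.card H := Nat.card_pos
      omega
    apply Nat.eq_of_mul_eq_mul_right hpos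
    rw [hb, ← h1]
    ring
  refine Fac.of_cover (A := γ '' R) (B := (H : Set G) ∪ (fun h => y * h) '' (H : Set G)) hb ?_ ?_ ?_
  · rw [hbR]
    exact Set.ncard_image_le (Set.toFinite _)
  · refine (Set.ncard_union_le _ _).trans ?_
    have h1 : ((fun h => y * h) '' (H : Set G)).ncard ≤ (H : Set G).ncard :=
      Set.ncard_image_le (Set.toFinite _)
    have h2 : Nat.card H = (H : Set G).ncard := Nat.card_coe_set_eq _
    omega
  · rw [Set.eq_univ_iff_forall]
    intro z
    -- the pair containing the coset of `z`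
    obtain ⟨u, huR, hzu⟩ : ∃ u ∈ R, ((z : G) : G ⧸ H) = u ∨ ((z : G) : G ⧸ H) = f u := by
      by_cases h : ((z : G) : G ⧸ H) ∈ R
      · exact ⟨_, h, Or.inl rfl⟩
      · have h' : ((z : G) : G ⧸ H) ∈ f '' R := by rw [himg]; exact h
        obtain ⟨u, hu, hu'⟩ := h'
        exact ⟨u, hu, Or.inr hu'.symm⟩
    have hz : ((z : G) : G ⧸ H) = (γ u : G ⧸ H) ∨ ((z : G) : G ⧸ H) = ((γ u * y : G) : G ⧸ H) := by
      rcases hγ u with ⟨h1, h2⟩ | ⟨h1, h2⟩
      · rcases hzu with h | h
        · left; rw [h]; exact h1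
        · right; rw [h]; exact h2
      · rcases hzu with h | h
        · right; rw [h]; exact h2
        · left; rw [h]; exact h1
    refine ⟨γ u, ⟨u, huR, rfl⟩, (γ u)⁻¹ * z, ?_, by simp⟩
    rcases hz with h | h
    · left
      exact QuotientGroup.eq.1 h.symm
    · right
      refine ⟨(γ u * y)⁻¹ * z, QuotientGroup.eq.1 h.symm, ?_⟩
      simp [mul_assoc]

/-- The double of the order of a subgroup. -/
theorem fac_double (H : Subgroup G) {b : ℕ} (hb : b * (2 * Nat.card H) = Nat.card G) :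
    Fac G b (2 * Nat.card H) := by
  have hp : Fact (Nat.Prime 2) := ⟨Nat.prime_two⟩
  have hH0 : Nat.card H ≠ 0 := Nat.card_pos.ne'
  obtain ⟨n, m, hm, hnm⟩ := Nat.exists_eq_two_pow_mul_odd hH0
  obtain ⟨S0, hS0⟩ := Sylow.exists_subgroup_card_pow_prime (G := H) 2 (n := n) ⟨m, hnm⟩
  let S : Subgroup G := S0.map H.subtype
  have hSc : Nat.card S = 2 ^ n := by
    rw [← hS0]
    exact Nat.card_congr (S0.equivMapOfInjective _ H.subtype_injective).toEquiv.symm
  have hSH : S ≤ H := by
    rintro _ ⟨x, _, rfl⟩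
    exact x.2
  have hdvd : 2 ^ (n + 1) ∣ Nat.card G := by
    rw [← hb, hnm]
    exact ⟨b * m, by ring⟩
  obtain ⟨K0, hK0, hSK⟩ := Sylow.exists_subgroup_card_pow_succ hdvd hSc
  obtain ⟨y, hyK, hyS⟩ : ∃ y ∈ K0, y ∉ S := by
    by_contra hcon
    push Not at hcon
    have hle : K0 ≤ S := hcon
    have := Subgroup.card_le_of_le hle
    rw [hK0, hSc, pow_succ] at this
    have : 0 < 2 ^ n := by positivity
    omega
  -- the group generated by `H` and `y`
  let L : Subgroup G := Subgroup.closure ((H : Set G) ∪ {y})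
  have hHL : H ≤ L := fun x hx => Subgroup.subset_closure (Or.inl hx)
  have hyL : y ∈ L := Subgroup.subset_closure (Or.inr rfl)
  have hKL : K0 ≤ L := by
    let M : Subgroup G := K0 ⊓ L
    have hSM : S ≤ M := le_inf hSK (hSH.trans hHL)
    have hMd : Nat.card S ∣ Nat.card M := Subgroup.card_dvd_of_le hSM
    have hne : Nat.card S ≠ Nat.card M := by
      intro h
      have : S = M := Subgroup.eq_of_le_of_card_ge hSM h.ge
      exact hyS (by rw [this]; exact ⟨hyK, hyL⟩)
    have hge : 2 ^ (n + 1) ≤ Nat.card M := by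
      obtain ⟨c, hc⟩ := hMd
      have hMpos : 0 < Nat.card M := Nat.card_pos
      have hc2 : 2 ≤ c := by
        rcases c with _ | _ | c
        · omega
        · omega
        · omega
      rw [hc, hSc, pow_succ]
      exact Nat.mul_le_mul_left _ hc2
    have hM : M = K0 := Subgroup.eq_of_le_of_card_ge inf_le_left (by rw [hK0]; exact hge)
    rw [← hM]
    exact inf_le_right
  have hL2 : 2 ^ (n + 1) ∣ Nat.card L := by
    rw [← hK0]; exact Subgroup.card_dvd_of_le hKL
  have hLm : m ∣ Nat.card L :=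
    dvd_trans ⟨2 ^ n, by rw [hnm]; ring⟩ (Subgroup.card_dvd_of_le hHL)
  have hcop : Nat.Coprime (2 ^ (n + 1)) m := Nat.Coprime.pow_left _ (Nat.coprime_two_left.2 hm)
  have hdL : 2 * Nat.card H ∣ Nat.card L := by
    have h1 := hcop.mul_dvd_of_dvd_of_dvd hL2 hLm
    rw [hnm]
    rwa [pow_succ, mul_comm (2 ^ n) 2, mul_assoc] at h1
  obtain ⟨c, hc⟩ := hdL
  -- inside `L`
  let H' : Subgroup L := H.subgroupOf L
  have hH'c : Nat.card H' = Nat.card H := Nat.card_congr (Subgroup.subgroupOfEquivOfLe hHL).toEquiv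
  have hgen : Subgroup.closure ((H' : Set L) ∪ {⟨y, hyL⟩}) = ⊤ := by
    have h1 := Subgroup.closure_closure_coe_preimage (k := (H : Set G) ∪ {y})
    convert h1 using 2
    ext x
    simp only [H', Set.mem_union, Set.mem_singleton_iff, Set.mem_preimage, SetLike.mem_coe,
      Subgroup.mem_subgroupOf, Subtype.ext_iff]
  have hev : Even H'.index := by
    have h1 := H'.index_mul_card
    rw [hH'c, hc] at h1
    have hpos : 0 < Nat.card H := Nat.card_pos
    have : H'.index = 2 * c := by
      apply Nat.eq_of_mul_eq_mul_right hpos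
      rw [h1]; ring
    rw [this]
    exact even_two_mul c
  have hfac : Fac L c (2 * Nat.card H) := by
    rw [← hH'c]
    exact fac_two H' ⟨y, hyL⟩ hgen hev (by rw [hH'c, hc]; ring)
  have hfin := hfac.lift L (by rw [hc]; ring)
  have hbc : b = L.index * c := by
    have h1 := L.index_mul_card
    have hpos : 0 < 2 * Nat.card H := by
      have : 0 < Nat.card H := Nat.card_pos
      omega
    apply Nat.eq_of_mul_eq_mul_right hpos
    rw [hb, ← h1, hc]; ring
  rw [hbc]
  exact hfin

end

end Pool.Agent.H39.TwoCosets
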