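import Mathlib
import Pool.Agent.H39.TwoCosets.Main

set_option autoImplicit false

open scoped Pointwise

namespace Pool.Agent.H39.TwoCosets

section
variable {G : Type*} [Group G] [Finite G]

theorem fac_card (H : Subgroup G) {b : ℕ} (hb : b * Nat.card H = Nat.card G) :
    Fac G b (Nat.card H) := by
  have h1 : Fac H 1 (Nat.card H) := by
    refine ⟨{1}, Set.univ, Set.ncard_singleton _, by rw [Set.ncard_univ], ?_⟩
    simp
  have h2 := h1.lift H (by rw [one_mul])
  have hbi : b = H.index * 1 := by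
    rw [mul_one]
    exact Nat.eq_of_mul_eq_mul_right Nat.card_pos (by rw [hb, H.index_mul_card])
  rw [hbi]
  exact h2

/-- Nested subgroups. -/
theorem fac_nested (S L : Subgroup G) (hSL : S ≤ L) {a b : ℕ} (hab : a * b = Nat.card G)
    (h : b = S.relIndex L ∨ 2 * b = S.relIndex L) : Fac G a b ∧ Fac G b a := by
  have hSc : Nat.card (S.subgroupOf L) = Nat.card S :=
    Nat.card_congr (Subgroup.subgroupOfEquivOfLe hSL).toEquiv
  have hidx : S.relIndex L * Nat.card S = Nat.card L := by
    have h1 := (S.subgroupOf L).index_mul_card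
    rw [hSc] at h1
    exact h1
  have hLG := L.index_mul_card
  have hS0 : 0 < Nat.card S := Nat.card_pos
  have hL0 : 0 < Nat.card L := Nat.card_pos
  have hb0 : 0 < b := by
    rcases Nat.eq_zero_or_pos b with h0 | h0
    · rw [h0, mul_zero] at hab
      have : 0 < Nat.card G := Nat.card_pos
      omega
    · exact h0
  have key : Fac G b a → Fac G a b ∧ Fac G b a := fun h => ⟨h.symm, h⟩
  apply key
  rcases h with h | h
  · have h1 : Fac L b (Nat.card S) := by
      rw [← hSc]
      exact fac_card (S.subgroupOf L) (by rw [hSc, h, hidx])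
    have h2 := (h1.symm).lift L (by rw [h, mul_comm, hidx])
    have h3 : a = L.index * Nat.card S := by
      apply Nat.eq_of_mul_eq_mul_right hb0
      rw [hab, ← hLG, ← hidx, h]; ring
    rw [h3]
    exact h2.symm
  · have h1 : Fac L b (2 * Nat.card S) := by
      rw [← hSc]
      exact fac_double (S.subgroupOf L) (by rw [hSc, ← hidx, ← h]; ring)
    have h2 := (h1.symm).lift L (by rw [← hidx, ← h]; ring)
    have h3 : a = L.index * (2 * Nat.card S) := by
      apply Nat.eq_of_mul_eq_mul_right hb0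
      rw [hab, ← hLG, ← hidx, ← h]; ring
    rw [h3]
    exact h2.symm

/-- Prime powers and their doubles. -/
theorem fac_prime_pow {a b : ℕ} (hab : a * b = Nat.card G)
    (h : ∃ p k : ℕ, p.Prime ∧ (a = p ^ k ∨ a = 2 * p ^ k)) : Fac G a b ∧ Fac G b a := by
  obtain ⟨p, k, hp, h⟩ := h
  have : Fact p.Prime := ⟨hp⟩
  have hd : p ^ k ∣ Nat.card G := by
    rw [← hab]
    rcases h with h | h
    · rw [h]; exact ⟨b, rfl⟩
    · rw [h]; exact ⟨2 * b, by ring⟩
  obtain ⟨H, hH⟩ := Sylow.exists_subgroup_card_pow_prime p hd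
  rcases h with h | h
  · have := fac_card H (b := b) (by rw [hH, ← h, mul_comm, hab])
    rw [hH, ← h] at this
    exact ⟨this.symm, this⟩
  · have := fac_double H (b := b) (by rw [hH, ← h, mul_comm, hab])
    rw [hH, ← h] at this
    exact ⟨this.symm, this⟩

theorem fac_small {a b : ℕ} (hab : a * b = Nat.card G) (h : a ≤ 11 ∨ b ≤ 11) : Fac G a b := by
  have hG : 0 < Nat.card G := Nat.card_pos
  have main : ∀ {a b : ℕ}, a * b = Nat.card G → a ≤ 11 → Fac G a b ∧ Fac G b a := by
    intro a b hab h
    apply fac_prime_pow hab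
    have ha : 0 < a := by
      rcases Nat.eq_zero_or_pos a with h0 | h0
      · rw [h0, zero_mul] at hab; omega
      · exact h0
    interval_cases a
    · exact ⟨2, 0, by norm_num, Or.inl rfl⟩
    · exact ⟨2, 1, by norm_num, Or.inl rfl⟩
    · exact ⟨3, 1, by norm_num, Or.inl rfl⟩
    · exact ⟨2, 2, by norm_num, Or.inl rfl⟩
    · exact ⟨5, 1, by norm_num, Or.inl rfl⟩
    · exact ⟨3, 1, by norm_num, Or.inr rfl⟩
    · exact ⟨7, 1, by norm_num, Or.inl rfl⟩
    · exact ⟨2, 3, by norm_num, Or.inl rfl⟩
    · exact ⟨3, 2, by norm_num, Or.inl rfl⟩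
    · exact ⟨5, 1, by norm_num, Or.inr rfl⟩
    · exact ⟨11, 1, by norm_num, Or.inl rfl⟩
  rcases h with h | h
  · exact (main hab h).1
  · exact (main (by rw [mul_comm]; exact hab) h).2

/-- A subgroup whose index has no factorization with both factors larger than two. -/
theorem fac_index (K : Subgroup G)
    (hK : ∀ d : ℕ, d ∣ Nat.card K → ∃ S : Subgroup G, S ≤ K ∧ Nat.card S = d)
    (hidx : ∀ c d : ℕ, c * d = K.index → c ≤ 2 ∨ d ≤ 2) {a b : ℕ} (hab : a * b = Nat.card G) :
    Fac G a b := by
  have hKpos : 0 < Nat.card K := Nat.card_pos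
  have hi := K.index_mul_card
  have hGpos : 0 < Nat.card G := Nat.card_pos
  have ha0 : 0 < a := Nat.pos_of_ne_zero (fun h => by rw [h, zero_mul] at hab; omega)
  have hb0 : 0 < b := Nat.pos_of_ne_zero (fun h => by rw [h, mul_zero] at hab; omega)
  -- `a = a₁ c`, `b = b₁ d`
  obtain ⟨a1, b1, c, d, ha, hb, hk, hcd⟩ : ∃ a1 b1 c d : ℕ, a = a1 * c ∧ b = b1 * d ∧
      a1 * b1 = Nat.card K ∧ c * d = K.index := by
    let g := Nat.gcd a (Nat.card K)
    have hg0 : 0 < g := Nat.gcd_pos_of_pos_left _ ha0
    obtain ⟨c, hc⟩ := Nat.gcd_dvd_left a (Nat.card K)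
    obtain ⟨b1, hb1⟩ := Nat.gcd_dvd_right a (Nat.card K)
    have hcop : Nat.Coprime c b1 := by
      have := Nat.coprime_div_gcd_div_gcd (m := a) (n := Nat.card K) hg0
      have e1 : a / g = c := by
        apply Nat.div_eq_of_eq_mul_right hg0; exact hc
      have e2 : Nat.card K / g = b1 := by
        apply Nat.div_eq_of_eq_mul_right hg0; exact hb1
      rwa [show Nat.gcd a (Nat.card K) = g from rfl, e1, e2] at this
    have hb10 : 0 < b1 := Nat.pos_of_ne_zero (fun h => by rw [h, mul_zero] at hb1; omega)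
    have hc0 : 0 < c := Nat.pos_of_ne_zero (fun h => by rw [h, mul_zero] at hc; omega)
    -- c * b = b1 * index
    have h1 : c * b = b1 * K.index := by
      apply Nat.eq_of_mul_eq_mul_left hg0
      calc g * (c * b) = (g * c) * b := by ring
        _ = a * b := by rw [← hc]
        _ = K.index * Nat.card K := by rw [hab, hi]
        _ = K.index * (g * b1) := by rw [← hb1]
        _ = g * (b1 * K.index) := by ring
    have h2 : b1 ∣ b := (hcop.symm).dvd_of_dvd_mul_left (by rw [h1]; exact ⟨_, rfl⟩)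
    obtain ⟨d, hd⟩ := h2
    refine ⟨g, b1, c, d, hc, hd, hb1.symm, ?_⟩
    apply Nat.eq_of_mul_eq_mul_left hb10
    rw [← h1, hd]; ring
  have hc0 : 0 < c := Nat.pos_of_ne_zero (fun h => by rw [h, mul_zero] at ha; omega)
  have hd0 : 0 < d := Nat.pos_of_ne_zero (fun h => by rw [h, mul_zero] at hb; omega)
  have hba : b * a = Nat.card G := by rw [mul_comm]; exact hab
  rcases hidx c d hcd with h | h
  · obtain ⟨S, -, hS⟩ := hK a1 ⟨b1, hk.symm⟩
    interval_cases c
    · have := fac_card S (b := b) (by rw [hS]; rw [ha, mul_one] at hba; exact hba)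
      rw [hS] at this
      rw [ha, mul_one]
      exact this.symm
    · have := fac_double S (b := b) (by rw [hS, mul_comm 2 a1, ← ha]; exact hba)
      rw [hS, mul_comm 2 a1, ← ha] at this
      exact this.symm
  · obtain ⟨S, -, hS⟩ := hK b1 ⟨a1, by rw [← hk]; ring⟩
    interval_cases d
    · have := fac_card S (b := a) (by rw [hS]; rw [hb, mul_one] at hab; exact hab)
      rw [hS] at this
      rw [hb, mul_one]
      exact this
    · have := fac_double S (b := a) (by rw [hS, mul_comm 2 b1, ← hb]; exact hab)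
      rw [hS, mul_comm 2 b1, ← hb] at this
      exact this

end

end Pool.Agent.H39.TwoCosets
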