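import Mathlib
import Pool.Agent.H39.TwoCosets.Main

set_option autoImplicit false

open scoped Pointwise

namespace Pool.Agent.H39.TwoCosets

section
variable {G : Type*} [Group G] [Finite G]

/-- Two left cosets of `H` tile the group, if `H` and `y` generate it and `H` has even index. -/
theorem tile_two (H : Subgroup G) (y : G) (hgen : Subgroup.closure ((H : Set G) ∪ {y}) = ⊤)
    (heven : Even H.index) :
    ∃ B : Set G, 2 * B.ncard ≤ H.index ∧ ∀ g : G, ∃ b ∈ B, ∃ h ∈ H, g = b * h ∨ g = b * y * h := by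
  classical
  obtain ⟨f, hf, hperf⟩ := exists_perfect (cadj_symm H y) (conn H y hgen)
    (by rw [← Subgroup.index_eq_card]; exact heven) (hall_smul H y)
  obtain ⟨e⟩ : Nonempty (G ⧸ H ≃ Fin (Nat.card (G ⧸ H))) := ⟨Finite.equivFin _⟩
  have hadj : ∀ u, cadj H y u (f u) := fun u => hf.2 u (hperf u)
  choose γ hγ using hadj
  let R : Set (G ⧸ H) := {u | e u < e (f u)}
  have hfin : Function.Injective f := fun a b h => by rw [← hf.1 a, h, hf.1 b]
  have himg : f '' R = Rᶜ := by
    ext t
    simp only [R, Set.mem_image, Set.mem_ofPred_eq, Set.mem_compl_iff, not_lt]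
    constructor
    · rintro ⟨u, hu, rfl⟩
      rw [hf.1 u]
      exact hu.le
    · intro h
      refine ⟨f t, ?_, hf.1 t⟩
      rw [hf.1 t]
      exact lt_of_le_of_ne h (fun h' => hperf t (e.injective h'))
  have hR : 2 * R.ncard = H.index := by
    have h1 := Set.ncard_add_ncard_compl R
    rw [← himg, Set.ncard_image_of_injective _ hfin, ← Subgroup.index_eq_card] at h1
    omega
  refine ⟨γ '' R, ?_, fun z => ?_⟩
  · rw [← hR]
    exact Nat.mul_le_mul_left _ (Set.ncard_image_le (Set.toFinite _))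
  · obtain ⟨u, huR, hzu⟩ : ∃ u ∈ R, ((z : G) : G ⧸ H) = u ∨ ((z : G) : G ⧸ H) = f u := by
      by_cases h : ((z : G) : G ⧸ H) ∈ R
      · exact ⟨_, h, Or.inl rfl⟩
      · have h' : ((z : G) : G ⧸ H) ∈ f '' R := by rw [himg]; exact h
        obtain ⟨u, hu, hu'⟩ := h'
        exact ⟨u, hu, Or.inr hu'.symm⟩
    have hz : ((z : G) : G ⧸ H) = (γ u : G ⧸ H) ∨ ((z : G) : G ⧸ H) = ((γ u * y : G) : G ⧸ H) := by
      rcases hγ u with ⟨h1, h2⟩ | ⟨h1, h2⟩
      · rcases hzu with h | h
        · left; rw [h]; exact h1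
        · right; rw [h]; exact h2
      · rcases hzu with h | h
        · right; rw [h]; exact h2
        · left; rw [h]; exact h1
    refine ⟨γ u, ⟨u, huR, rfl⟩, ?_⟩
    rcases hz with h | h
    · exact ⟨(γ u)⁻¹ * z, QuotientGroup.eq.1 h.symm, Or.inl (by group)⟩
    · exact ⟨(γ u * y)⁻¹ * z, QuotientGroup.eq.1 h.symm, Or.inr (by group)⟩

/-- The general form: the index of `H` in the group generated by `H` and `y` is even. -/
theorem tile_general (H : Subgroup G) (y : G)
    (heven : Even (H.relIndex (Subgroup.closure ((H : Set G) ∪ {y})))) :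
    ∃ B : Set G, B.ncard * (2 * Nat.card H) = Nat.card G ∧
      ∀ g : G, ∃ b ∈ B, ∃ h ∈ H, g = b * h ∨ g = b * y * h := by
  classical
  let L : Subgroup G := Subgroup.closure ((H : Set G) ∪ {y})
  have hHL : H ≤ L := fun x hx => Subgroup.subset_closure (Or.inl hx)
  have hyL : y ∈ L := Subgroup.subset_closure (Or.inr rfl)
  let H' : Subgroup L := H.subgroupOf L
  have hgen : Subgroup.closure ((H' : Set L) ∪ {⟨y, hyL⟩}) = ⊤ := by
    have h1 := Subgroup.closure_closure_coe_preimage (k := (H : Set G) ∪ {y})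
    convert h1 using 2
    ext x
    simp only [H', Set.mem_union, Set.mem_singleton_iff, Set.mem_preimage, SetLike.mem_coe,
      Subgroup.mem_subgroupOf, Subtype.ext_iff]
  obtain ⟨B, hB, hcov⟩ := tile_two H' ⟨y, hyL⟩ hgen heven
  obtain ⟨T, hT, -⟩ := L.exists_isComplement_left 1
  have hTc : T.ncard = L.index := hT.ncard_left
  let B' : Set G := T * ((fun x : L => (x : G)) '' B)
  have hcov' : ∀ g : G, ∃ b ∈ B', ∃ h ∈ H, g = b * h ∨ g = b * y * h := by
    intro g
    obtain ⟨⟨t, l⟩, htl⟩ := hT.surjective g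
    have htl' : (t : G) * (l : G) = g := htl
    obtain ⟨b, hb, h, hh, hor⟩ := hcov l
    refine ⟨t * b, ⟨t, t.2, b, ⟨b, hb, rfl⟩, rfl⟩, h, hh, ?_⟩
    rcases hor with e | e
    · left
      rw [← htl', e, Subgroup.coe_mul, mul_assoc]
    · right
      rw [← htl', e, Subgroup.coe_mul, Subgroup.coe_mul]
      simp [mul_assoc]
  refine ⟨B', ?_, hcov'⟩
  have hH'c : Nat.card H' = Nat.card H := Nat.card_congr (Subgroup.subgroupOfEquivOfLe hHL).toEquiv
  have hidx : H'.index * Nat.card H = Nat.card L := by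
    rw [← hH'c]; exact H'.index_mul_card
  have hLi := L.index_mul_card
  apply le_antisymm
  · have h1 : B'.ncard ≤ L.index * B.ncard := by
      refine (ncard_mul_le _ _).trans ?_
      rw [hTc]
      exact Nat.mul_le_mul_left _ (Set.ncard_image_le (Set.toFinite _))
    calc B'.ncard * (2 * Nat.card H) ≤ (L.index * B.ncard) * (2 * Nat.card H) :=
          Nat.mul_le_mul_right _ h1
      _ = L.index * ((2 * B.ncard) * Nat.card H) := by ring
      _ ≤ L.index * (H'.index * Nat.card H) :=
          Nat.mul_le_mul_left _ (Nat.mul_le_mul_right _ hB)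
      _ = Nat.card G := by rw [hidx, hLi]
  · have huniv : B' * ((H : Set G) ∪ (fun h => y * h) '' (H : Set G)) = Set.univ := by
      rw [Set.eq_univ_iff_forall]
      intro g
      obtain ⟨b, hb, h, hh, hor⟩ := hcov' g
      rcases hor with e | e
      · exact ⟨b, hb, h, Or.inl hh, e.symm⟩
      · exact ⟨b, hb, y * h, Or.inr ⟨h, hh, rfl⟩, by simp only; rw [e, mul_assoc]⟩
    rw [← Set.ncard_univ, ← huniv]
    refine (ncard_mul_le _ _).trans (Nat.mul_le_mul_left _ ?_)
    refine (Set.ncard_union_le _ _).trans ?_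
    have h1 : ((fun h => y * h) '' (H : Set G)).ncard ≤ (H : Set G).ncard :=
      Set.ncard_image_le (Set.toFinite _)
    have h2 : Nat.card H = (H : Set G).ncard := Nat.card_coe_set_eq _
    omega

/-- Such an element exists as soon as `2 |H|` divides `|G|`. -/
theorem exists_elt (H : Subgroup G) (hd : 2 * Nat.card H ∣ Nat.card G) :
    ∃ y : G, Even (H.relIndex (Subgroup.closure ((H : Set G) ∪ {y}))) := by
  have hp : Fact (Nat.Prime 2) := ⟨Nat.prime_two⟩
  have hH0 : Nat.card H ≠ 0 := Nat.card_pos.ne'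
  obtain ⟨n, m, hm, hnm⟩ := Nat.exists_eq_two_pow_mul_odd hH0
  obtain ⟨S0, hS0⟩ := Sylow.exists_subgroup_card_pow_prime (G := H) 2 (n := n) ⟨m, hnm⟩
  let S : Subgroup G := S0.map H.subtype
  have hSc : Nat.card S = 2 ^ n := by
    rw [← hS0]
    exact Nat.card_congr (S0.equivMapOfInjective _ H.subtype_injective).toEquiv.symm
  have hSH : S ≤ H := by
    rintro _ ⟨x, _, rfl⟩
    exact x.2
  have hdvd : 2 ^ (n + 1) ∣ Nat.card G := by
    refine dvd_trans ?_ hd
    rw [hnm]
    exact ⟨m, by ring⟩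
  obtain ⟨K0, hK0, hSK⟩ := Sylow.exists_subgroup_card_pow_succ hdvd hSc
  obtain ⟨y, hyK, hyS⟩ : ∃ y ∈ K0, y ∉ S := by
    by_contra hcon
    push Not at hcon
    have hle : K0 ≤ S := hcon
    have := Subgroup.card_le_of_le hle
    rw [hK0, hSc, pow_succ] at this
    have : 0 < 2 ^ n := by positivity
    omega
  refine ⟨y, ?_⟩
  let L : Subgroup G := Subgroup.closure ((H : Set G) ∪ {y})
  have hHL : H ≤ L := fun x hx => Subgroup.subset_closure (Or.inl hx)
  have hyL : y ∈ L := Subgroup.subset_closure (Or.inr rfl)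
  have hKL : K0 ≤ L := by
    let M : Subgroup G := K0 ⊓ L
    have hSM : S ≤ M := le_inf hSK (hSH.trans hHL)
    have hMd : Nat.card S ∣ Nat.card M := Subgroup.card_dvd_of_le hSM
    have hne : Nat.card S ≠ Nat.card M := by
      intro h
      have : S = M := Subgroup.eq_of_le_of_card_ge hSM h.ge
      exact hyS (by rw [this]; exact ⟨hyK, hyL⟩)
    have hge : 2 ^ (n + 1) ≤ Nat.card M := by
      obtain ⟨c, hc⟩ := hMd
      have hMpos : 0 < Nat.card M := Nat.card_pos
      have hc2 : 2 ≤ c := by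
        rcases c with _ | _ | c
        · omega
        · omega
        · omega
      rw [hc, hSc, pow_succ]
      exact Nat.mul_le_mul_left _ hc2
    have hM : M = K0 := Subgroup.eq_of_le_of_card_ge inf_le_left (by rw [hK0]; exact hge)
    rw [← hM]
    exact inf_le_right
  have hL2 : 2 ^ (n + 1) ∣ Nat.card L := by
    rw [← hK0]; exact Subgroup.card_dvd_of_le hKL
  have hLm : m ∣ Nat.card L :=
    dvd_trans ⟨2 ^ n, by rw [hnm]; ring⟩ (Subgroup.card_dvd_of_le hHL)
  have hcop : Nat.Coprime (2 ^ (n + 1)) m := Nat.Coprime.pow_left _ (Nat.coprime_two_left.2 hm)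
  have hdL : 2 * Nat.card H ∣ Nat.card L := by
    have h1 := hcop.mul_dvd_of_dvd_of_dvd hL2 hLm
    rw [hnm]
    rwa [pow_succ, mul_comm (2 ^ n) 2, mul_assoc] at h1
  obtain ⟨c, hc⟩ := hdL
  have hH'c : Nat.card (H.subgroupOf L) = Nat.card H :=
    Nat.card_congr (Subgroup.subgroupOfEquivOfLe hHL).toEquiv
  have h1 := (H.subgroupOf L).index_mul_card
  rw [hH'c, hc] at h1
  have hpos : 0 < Nat.card H := Nat.card_pos
  have : (H.subgroupOf L).index = 2 * c := by
    apply Nat.eq_of_mul_eq_mul_right hpos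
    rw [h1]; ring
  change Even (H.subgroupOf L).index
  rw [this]
  exact even_two_mul c

end

end Pool.Agent.H39.TwoCosets
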