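import Mathlib
import Pool.Agent.H39.TwoCosets.Cor
import Pool.Agent.H39.TwoCosets.Tile

set_option autoImplicit false

open scoped Pointwise

namespace Pool.Agent.H39.TwoCosets

/-- every factorization of the order is realised -/
def Good (G : Type*) [Group G] : Prop := ∀ a b : ℕ, a * b = Nat.card G → Fac G a b

section
variable {G : Type*} [Group G] [Finite G]

/-- the master rule -/
theorem fac_master (S D : Subgroup G) (y : G) (hDS : D ≤ S) (hy : ∀ d ∈ D, y * d * y⁻¹ ∈ D)
    (hev : Even (S.relIndex (Subgroup.closure ((S : Set G) ∪ {y})))) {a1 b1 m : ℕ}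
    (h1 : b1 * a1 = Nat.card D) (hfac : Fac D b1 a1) (hm : 2 * m * Nat.card S = Nat.card G) :
    Fac G (m * b1) (2 * D.relIndex S * a1) := by
  classical
  obtain ⟨B, hB, hcov⟩ := tile_general S y hev
  obtain ⟨B1, A1, hB1, hA1, hBA⟩ := hfac
  let D' : Subgroup S := D.subgroupOf S
  have hD'c : Nat.card D' = Nat.card D := Nat.card_congr (Subgroup.subgroupOfEquivOfLe hDS).toEquiv
  obtain ⟨T, hT, -⟩ := D'.exists_isComplement_right 1
  have hTc : T.ncard = D.relIndex S := hT.ncard_right
  have hSpos : 0 < Nat.card S := Nat.card_pos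
  have hBm : B.ncard = m := by
    apply Nat.eq_of_mul_eq_mul_right (show 0 < 2 * Nat.card S by omega)
    rw [hB, ← hm]; ring
  have hidx : D.relIndex S * Nat.card D = Nat.card S := by
    rw [← hD'c]
    exact D'.index_mul_card
  let A0 : Set G := (fun x : S => (x : G)) '' T
  let A1' : Set G := (fun x : D => (x : G)) '' A1
  let B1' : Set G := (fun x : D => (x : G)) '' B1
  have hA0c : A0.ncard ≤ D.relIndex S := by
    rw [← hTc]; exact Set.ncard_image_le (Set.toFinite _)
  have hA1c : A1'.ncard ≤ a1 := by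
    rw [← hA1]; exact Set.ncard_image_le (Set.toFinite _)
  have hB1c : B1'.ncard ≤ b1 := by
    rw [← hB1]; exact Set.ncard_image_le (Set.toFinite _)
  have hD : ∀ d ∈ D, ∃ u ∈ B1', ∃ v ∈ A1', u * v = d := by
    intro d hd
    have : (⟨d, hd⟩ : D) ∈ B1 * A1 := by rw [hBA]; trivial
    obtain ⟨u, hu, v, hv, huv⟩ := this
    exact ⟨u, ⟨u, hu, rfl⟩, v, ⟨v, hv, rfl⟩, congrArg Subtype.val huv⟩
  have hS : ∀ s ∈ S, ∃ d ∈ D, ∃ t ∈ A0, d * t = s := by
    intro s hs
    obtain ⟨⟨d, t⟩, hdt⟩ := hT.surjective (⟨s, hs⟩ : S)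
    refine ⟨((d : S) : G), d.2, ((t : S) : G), ⟨t, t.2, rfl⟩, ?_⟩
    exact congrArg Subtype.val hdt
  refine Fac.of_cover (A := B * B1') (B := A1' * A0 ∪ A1' * ((fun t => y * t) '' A0)) ?_ ?_ ?_ ?_
  · calc m * b1 * (2 * D.relIndex S * a1) = 2 * m * (D.relIndex S * (b1 * a1)) := by ring
      _ = Nat.card G := by rw [h1, hidx, hm]
  · refine (ncard_mul_le _ _).trans ?_
    rw [hBm]
    exact Nat.mul_le_mul_left _ hB1c
  · refine (Set.ncard_union_le _ _).trans ?_
    have e1 : (A1' * A0).ncard ≤ a1 * D.relIndex S :=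
      (ncard_mul_le _ _).trans (Nat.mul_le_mul hA1c hA0c)
    have e2 : (A1' * ((fun t => y * t) '' A0)).ncard ≤ a1 * D.relIndex S :=
      (ncard_mul_le _ _).trans (Nat.mul_le_mul hA1c
        ((Set.ncard_image_le (Set.toFinite _)).trans hA0c))
    calc _ ≤ a1 * D.relIndex S + a1 * D.relIndex S := Nat.add_le_add e1 e2
      _ = 2 * D.relIndex S * a1 := by ring
  · rw [Set.eq_univ_iff_forall]
    intro g
    obtain ⟨b, hb, s, hs, hor⟩ := hcov g
    obtain ⟨d, hd, t, ht, rfl⟩ := hS s hs
    rcases hor with e | e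
    · obtain ⟨u, hu, v, hv, huv⟩ := hD d hd
      refine ⟨b * u, ⟨b, hb, u, hu, rfl⟩, v * t, Or.inl ⟨v, hv, t, ht, rfl⟩, ?_⟩
      simp only
      rw [e, ← huv]; group
    · obtain ⟨u, hu, v, hv, huv⟩ := hD _ (hy d hd)
      refine ⟨b * u, ⟨b, hb, u, hu, rfl⟩, v * (y * t),
        Or.inr ⟨v, hv, y * t, ⟨t, ht, rfl⟩, rfl⟩, ?_⟩
      simp only
      have : b * u * (v * (y * t)) = b * (u * v) * y * t := by group
      rw [e, this, huv]; group

theorem Good.left {G : Type*} [Group G] [Finite G] (L : Subgroup G) (hL : Good L) {a b : ℕ}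
    (hab : a * b = Nat.card G) (h : L.index ∣ a) : Fac G a b := by
  obtain ⟨c, rfl⟩ := h
  have hpos : 0 < L.index := Nat.pos_of_ne_zero Subgroup.index_ne_zero_of_finite
  have hc : c * b = Nat.card L := by
    apply Nat.eq_of_mul_eq_mul_left hpos
    rw [L.index_mul_card, ← hab]; ring
  exact (hL c b hc).lift L hc

theorem Good.right {G : Type*} [Group G] [Finite G] (L : Subgroup G) (hL : Good L) {a b : ℕ}
    (hab : a * b = Nat.card G) (h : L.index ∣ b) : Fac G a b :=
  (Good.left L hL (by rw [mul_comm]; exact hab) h).symm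

/-- Index a prime power whose square (divided by the prime) divides the order. -/
theorem good_of_index (L : Subgroup G) (hL : Good L) {q e : ℕ} (hq : q.Prime)
    (hi : L.index = q ^ e) (hd : q ^ (2 * e - 1) ∣ Nat.card G) : Good G := by
  intro a b hab
  have hcard : Nat.card G ≠ 0 := Nat.card_pos.ne'
  have ha : a ≠ 0 := fun h => by rw [h, zero_mul] at hab; exact hcard hab.symm
  have hb : b ≠ 0 := fun h => by rw [h, mul_zero] at hab; exact hcard hab.symm
  have h1 : 2 * e - 1 ≤ (Nat.card G).factorization q :=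
    (hq.pow_dvd_iff_le_factorization hcard).1 hd
  rw [← hab, Nat.factorization_mul ha hb, Finsupp.add_apply] at h1
  rcases Nat.lt_or_ge (a.factorization q) e with h | h
  · refine Good.right L hL hab ?_
    rw [hi, hq.pow_dvd_iff_le_factorization hb]
    omega
  · refine Good.left L hL hab ?_
    rw [hi, hq.pow_dvd_iff_le_factorization ha]
    exact h

/-- Reduction: a subgroup of index `2 r ^ k`, and a subgroup `D` of it normalised by `y`. -/
theorem good_of_two_r (K D M : Subgroup G) (y : G) {r k q e : ℕ} (hr : r.Prime) (hr2 : r ≠ 2)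
    (hq : q.Prime) (hK : K.index = 2 * r ^ k) (hDK : D ≤ K) (hD : D.relIndex K = q ^ e)
    (hy : ∀ d ∈ D, y * d * y⁻¹ ∈ D)
    (hev : Even (K.relIndex (Subgroup.closure ((K : Set G) ∪ {y}))))
    (hM : M.index = r ^ k * q ^ e) (hcop : Nat.Coprime r q) (hq2 : q ≠ 2)
    (hrk : r ^ (2 * k - 1) ∣ Nat.card G)
    (hqe : q ^ (2 * e - 1) ∣ Nat.card G)
    (gK : Good K) (gD : Good D) (gM : Good M) : Good G := by
  have hcard : Nat.card G ≠ 0 := Nat.card_pos.ne'
  have hidx : D.relIndex K * Nat.card D = Nat.card K := by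
    have hD'c : Nat.card (D.subgroupOf K) = Nat.card D :=
      Nat.card_congr (Subgroup.subgroupOfEquivOfLe hDK).toEquiv
    rw [← hD'c]
    exact (D.subgroupOf K).index_mul_card
  have hKc := K.index_mul_card
  rw [hK] at hKc
  have hDc : 2 * r ^ k * (q ^ e * Nat.card D) = Nat.card G := by rw [← hD, hidx, hKc]
  have hrodd : Odd r := hr.odd_of_ne_two hr2
  have hqodd : Odd q := hq.odd_of_ne_two hq2
  -- the case where `a` is odd and divisible by `r ^ k`
  have main : ∀ a b : ℕ, a * b = Nat.card G → Odd a → r ^ k ∣ a → Fac G a b := by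
    intro a b hab haodd hra
    have ha : a ≠ 0 := fun h => by rw [h, zero_mul] at hab; exact hcard hab.symm
    have hb : b ≠ 0 := fun h => by rw [h, mul_zero] at hab; exact hcard hab.symm
    by_cases hqa : q ^ e ∣ a
    · refine Good.left M gM hab ?_
      rw [hM]
      exact Nat.Coprime.mul_dvd_of_dvd_of_dvd (Nat.Coprime.pow k e hcop) hra hqa
    · have h1 : 2 * e - 1 ≤ (Nat.card G).factorization q :=
        (hq.pow_dvd_iff_le_factorization hcard).1 hqe
      rw [← hab, Nat.factorization_mul ha hb, Finsupp.add_apply] at h1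
      have h2 : ¬ e ≤ a.factorization q := fun h => hqa ((hq.pow_dvd_iff_le_factorization ha).2 h)
      have hqb : q ^ e ∣ b := by
        rw [hq.pow_dvd_iff_le_factorization hb]
        omega
      have h2b : 2 ∣ b := by
        have h2G : 2 ∣ a * b := by rw [hab, ← hDc]; exact ⟨r ^ k * (q ^ e * Nat.card D), by ring⟩
        exact (Nat.Coprime.dvd_mul_left (Nat.coprime_two_left.2 haodd)).1 h2G
      have h2q : 2 * q ^ e ∣ b :=
        Nat.Coprime.mul_dvd_of_dvd_of_dvd ((Nat.coprime_two_left.2 (hqodd.pow))) h2b hqb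
      obtain ⟨b1, rfl⟩ := hra
      obtain ⟨a1, rfl⟩ := h2q
      have hrpos : 0 < r ^ k := pow_pos hr.pos k
      have hqpos : 0 < q ^ e := pow_pos hq.pos e
      have hc : b1 * a1 = Nat.card D := by
        have h3 : (2 * r ^ k * q ^ e) * (b1 * a1) = (2 * r ^ k * q ^ e) * Nat.card D := by
          calc (2 * r ^ k * q ^ e) * (b1 * a1) = r ^ k * b1 * (2 * q ^ e * a1) := by ring
            _ = 2 * r ^ k * (q ^ e * Nat.card D) := by rw [hab, hDc]
            _ = _ := by ring
        exact Nat.eq_of_mul_eq_mul_left (by positivity) h3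
      have := fac_master K D y hDK hy hev hc (gD b1 a1 hc) hKc
      rw [hD] at this
      exact this
  intro a b hab
  have ha : a ≠ 0 := fun h => by rw [h, zero_mul] at hab; exact hcard hab.symm
  have hb : b ≠ 0 := fun h => by rw [h, mul_zero] at hab; exact hcard hab.symm
  have hba : b * a = Nat.card G := by rw [mul_comm]; exact hab
  have h2r : Nat.Coprime 2 (r ^ k) := Nat.coprime_two_left.2 hrodd.pow
  by_cases h1 : 2 * r ^ k ∣ a
  · exact Good.left K gK hab (by rw [hK]; exact h1)
  by_cases h2 : 2 * r ^ k ∣ b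
  · exact Good.right K gK hab (by rw [hK]; exact h2)
  have hor : r ^ k ∣ a ∨ r ^ k ∣ b := by
    have h1 : 2 * k - 1 ≤ (Nat.card G).factorization r :=
      (hr.pow_dvd_iff_le_factorization hcard).1 hrk
    rw [← hab, Nat.factorization_mul ha hb, Finsupp.add_apply] at h1
    rw [hr.pow_dvd_iff_le_factorization ha, hr.pow_dvd_iff_le_factorization hb]
    omega
  rcases hor with h | h
  · have : Odd a := by
      rw [← Nat.not_even_iff_odd]
      intro he
      exact h1 (Nat.Coprime.mul_dvd_of_dvd_of_dvd h2r he.two_dvd h)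
    exact main a b hab this h
  · have : Odd b := by
      rw [← Nat.not_even_iff_odd]
      intro he
      exact h2 (Nat.Coprime.mul_dvd_of_dvd_of_dvd h2r he.two_dvd h)
    exact (main b a hba this h).symm

end

end Pool.Agent.H39.TwoCosets
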