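import Mathlib
import Pool.Agent.H39.TwoCosets.Reduce

set_option autoImplicit false

open scoped Pointwise

namespace Pool.Agent.H39.TwoCosets

theorem Good.congr {G H : Type*} [Group G] [Group H] (e : G ≃* H) (h : Good G) : Good H := by
  intro a b hab
  obtain ⟨A, B, hA, hB, hAB⟩ := h a b (by rw [hab]; exact (Nat.card_congr e.toEquiv).symm)
  refine ⟨e '' A, e '' B, ?_, ?_, ?_⟩
  · rw [Set.ncard_image_of_injective _ e.injective, hA]
  · rw [Set.ncard_image_of_injective _ e.injective, hB]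
  · rw [Set.eq_univ_iff_forall]
    intro g
    have : e.symm g ∈ A * B := by rw [hAB]; trivial
    obtain ⟨x, hx, y, hy, hxy⟩ := this
    refine ⟨e x, ⟨x, hx, rfl⟩, e y, ⟨y, hy, rfl⟩, ?_⟩
    simp only at hxy ⊢
    rw [← map_mul, hxy, e.apply_symm_apply]

section
variable {G : Type*} [Group G] [Finite G]

/-- the group `D ∪ yD` -/
def ext2 (D : Subgroup G) (y : G) (hy : ∀ d ∈ D, y * d * y⁻¹ ∈ D) (hyy : y * y ∈ D) :
    Subgroup G where
  carrier := {g | g ∈ D ∨ y⁻¹ * g ∈ D}
  one_mem' := Or.inl D.one_mem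
  mul_mem' := by
    have hy' : ∀ d ∈ D, y⁻¹ * d * y ∈ D := by
      intro d hd
      have h1 := D.mul_mem (D.mul_mem (D.inv_mem hyy) (hy d hd)) hyy
      have e : (y * y)⁻¹ * (y * d * y⁻¹) * (y * y) = y⁻¹ * d * y := by group
      rwa [e] at h1
    rintro a b (ha | ha) (hb | hb)
    · exact Or.inl (D.mul_mem ha hb)
    · right
      have h1 := D.mul_mem (hy' a ha) hb
      have e : y⁻¹ * a * y * (y⁻¹ * b) = y⁻¹ * (a * b) := by group
      rwa [e] at h1
    · right
      have h1 := D.mul_mem ha hb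
      rwa [mul_assoc] at h1
    · left
      have h1 := D.mul_mem (D.mul_mem (hy _ ha) hyy) hb
      have e : y * (y⁻¹ * a) * y⁻¹ * (y * y) * (y⁻¹ * b) = a * b := by group
      rwa [e] at h1
  inv_mem' := by
    have hy' : ∀ d ∈ D, y⁻¹ * d * y ∈ D := by
      intro d hd
      have h1 := D.mul_mem (D.mul_mem (D.inv_mem hyy) (hy d hd)) hyy
      have e : (y * y)⁻¹ * (y * d * y⁻¹) * (y * y) = y⁻¹ * d * y := by group
      rwa [e] at h1
    rintro a (ha | ha)
    · exact Or.inl (D.inv_mem ha)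
    · right
      have h1 := D.mul_mem (hy' _ (D.inv_mem ha)) (D.inv_mem hyy)
      have e : y⁻¹ * (y⁻¹ * a)⁻¹ * y * (y * y)⁻¹ = y⁻¹ * a⁻¹ := by group
      rwa [e] at h1

theorem ext2_card (D : Subgroup G) (y : G) (hy : ∀ d ∈ D, y * d * y⁻¹ ∈ D) (hyy : y * y ∈ D)
    (hyD : y ∉ D) : Nat.card (ext2 D y hy hyy) = 2 * Nat.card D := by
  classical
  have e : ((ext2 D y hy hyy : Subgroup G) : Set G) = (D : Set G) ∪ (fun d => y * d) '' (D : Set G) := by
    ext g
    constructor
    · rintro (h | h)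
      · exact Or.inl h
      · exact Or.inr ⟨y⁻¹ * g, h, by simp⟩
    · rintro (h | ⟨d, hd, rfl⟩)
      · exact Or.inl h
      · right
        simpa using hd
  have h1 : Nat.card (ext2 D y hy hyy) = ((ext2 D y hy hyy : Subgroup G) : Set G).ncard :=
    Nat.card_coe_set_eq _
  have h2 : Nat.card D = (D : Set G).ncard := Nat.card_coe_set_eq _
  rw [h1, e, Set.ncard_union_eq, Set.ncard_image_of_injective _ (mul_right_injective y), h2]
  · ring
  · rw [Set.disjoint_left]
    rintro g hg ⟨d, hd, rfl⟩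
    apply hyD
    have := D.mul_mem hg (D.inv_mem hd)
    simpa using this

theorem ext2_good (D : Subgroup G) (y : G) (hy : ∀ d ∈ D, y * d * y⁻¹ ∈ D) (hyy : y * y ∈ D)
    (hyD : y ∉ D) (hD : Good D) : Good (ext2 D y hy hyy) := by
  have hle : D ≤ ext2 D y hy hyy := fun d hd => Or.inl hd
  have hc := Nat.card_congr (Subgroup.subgroupOfEquivOfLe hle).toEquiv
  have hgood : Good (D.subgroupOf (ext2 D y hy hyy)) :=
    hD.congr (Subgroup.subgroupOfEquivOfLe hle).symm
  have hcard := ext2_card D y hy hyy hyD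
  apply good_of_index _ hgood Nat.prime_two (e := 1)
  · rw [pow_one]
    have h1 := (D.subgroupOf (ext2 D y hy hyy)).index_mul_card
    rw [hc, hcard] at h1
    exact Nat.eq_of_mul_eq_mul_right Nat.card_pos h1
  · rw [hcard]
    exact ⟨Nat.card D, by norm_num⟩

/-- The reduction theorem with the subgroup `M = D ∪ yD`. -/
theorem good_of_two_r' (K D : Subgroup G) (y : G) {r k q e : ℕ} (hr : r.Prime) (hr2 : r ≠ 2)
    (hq : q.Prime) (hK : K.index = 2 * r ^ k) (hDK : D ≤ K) (hD : D.relIndex K = q ^ e)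
    (hy : ∀ d ∈ D, y * d * y⁻¹ ∈ D) (hyy : y * y ∈ D) (hyD : y ∉ D)
    (hev : Even (K.relIndex (Subgroup.closure ((K : Set G) ∪ {y}))))
    (hcop : Nat.Coprime r q) (hq2 : q ≠ 2)
    (hrk : r ^ (2 * k - 1) ∣ Nat.card G)
    (hqe : q ^ (2 * e - 1) ∣ Nat.card G)
    (gK : Good K) (gD : Good D) : Good G := by
  refine good_of_two_r K D (ext2 D y hy hyy) y hr hr2 hq hK hDK hD hy hev ?_ hcop hq2 hrk hqe
    gK gD (ext2_good D y hy hyy hyD gD)
  have h1 := (ext2 D y hy hyy).index_mul_card
  rw [ext2_card D y hy hyy hyD] at h1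
  have h2 := Subgroup.relIndex_mul_index hDK
  have h3 := D.index_mul_card
  rw [hD, hK] at h2
  rw [← h2] at h3
  apply Nat.eq_of_mul_eq_mul_right (show 0 < 2 * Nat.card D by
    have : 0 < Nat.card D := Nat.card_pos
    omega)
  rw [h1, ← h3]; ring

/-- Reduction for two-transitive actions. -/
theorem good_of_two_trans {X : Type*} [Finite X] [MulAction G X] {r k q e : ℕ}
    (h2t : ∀ a b c d : X, a ≠ b → c ≠ d → ∃ g : G, g • a = c ∧ g • b = d)
    (hr : r.Prime) (hr2 : r ≠ 2) (hk : k ≠ 0) (hX : Nat.card X = 2 * r ^ k) (hq : q.Prime)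
    (hqe : 2 * r ^ k - 1 = q ^ e) (hrk : r ^ (2 * k - 1) ∣ Nat.card G)
    (hdvd : q ^ (2 * e - 1) ∣ Nat.card G) (x x' : X) (hxx : x ≠ x')
    (gK : Good (MulAction.stabilizer G x))
    (gD : Good (MulAction.stabilizer G x ⊓ MulAction.stabilizer G x' : Subgroup G)) : Good G := by
  classical
  have hr3' : 3 ≤ r := by
    have := hr.two_le
    omega
  have hr3 : 3 ≤ r ^ k := hr3'.trans (Nat.le_self_pow hk r)
  have : Fintype X := Fintype.ofFinite X
  -- transitivity
  have htr : MulAction.IsPretransitive G X := by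
    constructor
    intro a b
    by_cases hab : a = b
    · exact ⟨1, by rw [hab, one_smul]⟩
    · obtain ⟨g, hg, -⟩ := h2t a b b a hab (Ne.symm hab)
      exact ⟨g, hg⟩
  obtain ⟨y, hy1, hy2⟩ := h2t x x' x' x hxx hxx.symm
  have hKi : (MulAction.stabilizer G x).index = 2 * r ^ k := by
    rw [MulAction.index_stabilizer_of_transitive, hX]
  -- the stabiliser of the pair
  have hDeq : (MulAction.stabilizer G x ⊓ MulAction.stabilizer G x' : Subgroup G) =
      MulAction.stabilizer G ((x, x') : X × X) := by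
    ext g
    simp [Subgroup.mem_inf, MulAction.mem_stabilizer_iff, Prod.ext_iff]
  have horb : MulAction.orbit G ((x, x') : X × X) = {p : X × X | p.1 ≠ p.2} := by
    ext ⟨c, d⟩
    rw [MulAction.mem_orbit_iff]
    constructor
    · rintro ⟨g, hg⟩
      have h1 : g • x = c := congrArg Prod.fst hg
      have h2 : g • x' = d := congrArg Prod.snd hg
      change c ≠ d
      rw [← h1, ← h2]
      exact fun h => hxx (MulAction.injective g h)
    · intro h
      obtain ⟨g, hg1, hg2⟩ := h2t x x' c d hxx h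
      exact ⟨g, Prod.ext hg1 hg2⟩
  have hDi : (MulAction.stabilizer G x ⊓ MulAction.stabilizer G x' : Subgroup G).index =
      2 * r ^ k * (2 * r ^ k - 1) := by
    rw [hDeq, MulAction.index_stabilizer, horb]
    have e1 : {p : X × X | p.1 ≠ p.2} = ((Finset.univ : Finset X).offDiag : Set (X × X)) := by
      ext p; simp
    rw [e1, Set.ncard_coe_finset, Finset.offDiag_card, Finset.card_univ,
      ← Nat.card_eq_fintype_card, hX, Nat.mul_sub, mul_one]
  have hDK : (MulAction.stabilizer G x ⊓ MulAction.stabilizer G x' : Subgroup G) ≤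
      MulAction.stabilizer G x := inf_le_left
  have hrel : (MulAction.stabilizer G x ⊓ MulAction.stabilizer G x' : Subgroup G).relIndex
      (MulAction.stabilizer G x) = q ^ e := by
    have h1 := Subgroup.relIndex_mul_index hDK
    rw [hKi, hDi, mul_comm] at h1
    exact (Nat.eq_of_mul_eq_mul_left (by omega) h1).trans hqe
  have hqodd : q ≠ 2 := by
    rintro rfl
    rcases e with _ | e
    · rw [pow_zero] at hqe; omega
    · rw [pow_succ] at hqe; omega
  have he : e ≠ 0 := by
    rintro rfl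
    rw [pow_zero] at hqe; omega
  have hcop : Nat.Coprime r q := by
    rw [Nat.coprime_primes hr hq]
    rintro rfl
    have h1 : r ∣ r ^ e := dvd_pow_self r he
    rw [← hqe] at h1
    have h2 : r ∣ 2 * r ^ k := dvd_mul_of_dvd_right (dvd_pow_self r hk) 2
    have h3 : r ∣ 2 * r ^ k - (2 * r ^ k - 1) := Nat.dvd_sub h2 h1
    have h4 : 2 * r ^ k - (2 * r ^ k - 1) = 1 := by omega
    rw [h4, Nat.dvd_one] at h3
    omega
  have hyinv1 : y⁻¹ • x = x' := by rw [← hy2, inv_smul_smul]
  have hyinv2 : y⁻¹ • x' = x := by rw [← hy1, inv_smul_smul]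
  refine good_of_two_r' _ _ y hr hr2 hq hKi hDK hrel ?_ ?_ ?_ ?_ hcop hqodd hrk hdvd gK gD
  · rintro d ⟨hd1, hd2⟩
    have e1 : d • x = x := hd1
    have e2 : d • x' = x' := hd2
    refine ⟨?_, ?_⟩
    · change (y * d * y⁻¹) • x = x
      rw [mul_smul, mul_smul, hyinv1, e2, hy2]
    · change (y * d * y⁻¹) • x' = x'
      rw [mul_smul, mul_smul, hyinv2, e1, hy1]
  · refine ⟨?_, ?_⟩
    · change (y * y) • x = x
      rw [mul_smul, hy1, hy2]
    · change (y * y) • x' = x'
      rw [mul_smul, hy2, hy1]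
  · rintro ⟨h, -⟩
    have h' : y • x = x := h
    exact hxx (by rw [← h', hy1])
  · -- the closure is everything
    have htop : Subgroup.closure (((MulAction.stabilizer G x : Subgroup G) : Set G) ∪ {y}) = ⊤ := by
      rw [Subgroup.eq_top_iff']
      intro g
      have hyc : y ∈ Subgroup.closure (((MulAction.stabilizer G x : Subgroup G) : Set G) ∪ {y}) :=
        Subgroup.subset_closure (Or.inr rfl)
      have hKc : ∀ k : G, k • x = x →
          k ∈ Subgroup.closure (((MulAction.stabilizer G x : Subgroup G) : Set G) ∪ {y}) :=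
        fun k hk => Subgroup.subset_closure (Or.inl hk)
      -- an element of the closure which moves `x` to `g • x`
      obtain ⟨l, hl, hlx⟩ : ∃ l ∈ Subgroup.closure
          (((MulAction.stabilizer G x : Subgroup G) : Set G) ∪ {y}), l • x = g • x := by
        by_cases hgx : g • x = x
        · exact ⟨1, Subgroup.one_mem _, by rw [one_smul, hgx]⟩
        · obtain ⟨k, hk1, hk2⟩ := h2t x x' x (g • x) hxx (Ne.symm hgx)
          exact ⟨k * y, Subgroup.mul_mem _ (hKc k hk1) hyc, by rw [mul_smul, hy1, hk2]⟩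
      have : g = l * (l⁻¹ * g) := by group
      rw [this]
      refine Subgroup.mul_mem _ hl (hKc _ ?_)
      rw [mul_smul, ← hlx, inv_smul_smul]
    rw [htop, Subgroup.relIndex_top_right, hKi]
    exact even_two_mul (r ^ k)

end

end Pool.Agent.H39.TwoCosets
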