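import Mathlib
import Pool.Agent.H39.TwoCosets.TwoTrans

set_option autoImplicit false

open scoped Pointwise
open Equiv

namespace Pool.Agent.H39.TwoCosets

section
variable {α : Type} [Fintype α] [DecidableEq α]

theorem stab_one (x : α) : MulAction.stabilizer (alternatingGroup α) x =
    (alternatingGroup.ofSubtype ((Finset.univ : Finset α).erase x)).range := by
  ext k
  rw [alternatingGroup.mem_range_ofSubtype_iff, MulAction.mem_stabilizer_iff]
  change (k : Perm α) x = x ↔ _
  constructor
  · intro h t ht
    rw [Finset.mem_erase]
    refine ⟨?_, Finset.mem_univ _⟩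
    rintro rfl
    exact (Perm.mem_support.1 ht) h
  · intro h
    by_contra hne
    exact (Finset.mem_erase.1 (h (Perm.mem_support.2 hne))).1 rfl

theorem stab_two (x x' : α) : (MulAction.stabilizer (alternatingGroup α) x ⊓
    MulAction.stabilizer (alternatingGroup α) x' : Subgroup (alternatingGroup α)) =
    (alternatingGroup.ofSubtype (((Finset.univ : Finset α).erase x).erase x')).range := by
  ext k
  rw [alternatingGroup.mem_range_ofSubtype_iff, Subgroup.mem_inf, MulAction.mem_stabilizer_iff,
    MulAction.mem_stabilizer_iff]
  change ((k : Perm α) x = x ∧ (k : Perm α) x' = x') ↔ _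
  constructor
  · rintro ⟨h, h'⟩ t ht
    rw [Finset.mem_erase, Finset.mem_erase]
    refine ⟨?_, ?_, Finset.mem_univ _⟩
    · rintro rfl
      exact (Perm.mem_support.1 ht) h'
    · rintro rfl
      exact (Perm.mem_support.1 ht) h
  · intro h
    constructor
    · by_contra hne
      exact (Finset.mem_erase.1 (Finset.mem_erase.1 (h (Perm.mem_support.2 hne))).2).1 rfl
    · by_contra hne
      exact (Finset.mem_erase.1 (h (Perm.mem_support.2 hne))).1 rfl

theorem good_range (s : Finset α) (h : Good (alternatingGroup s)) :
    Good (alternatingGroup.ofSubtype s).range :=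
  h.congr (MonoidHom.ofInjective alternatingGroup.ofSubtype_injective)

theorem alt_index (h : 3 ≤ Fintype.card α) (x : α) :
    (MulAction.stabilizer (alternatingGroup α) x).index = Fintype.card α := by
  have := alternatingGroup.isPretransitive_of_three_le_card α
    (by rw [Nat.card_eq_fintype_card]; exact h)
  rw [MulAction.index_stabilizer_of_transitive, Nat.card_eq_fintype_card]

theorem alt_two_trans (h : 4 ≤ Fintype.card α) (a b c d : α) (hab : a ≠ b) (hcd : c ≠ d) :
    ∃ g : alternatingGroup α, g • a = c ∧ g • b = d := by
  have h1 := alternatingGroup.isMultiplyPretransitive α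
  have h2 : MulAction.IsMultiplyPretransitive (alternatingGroup α) α 2 := by
    refine MulAction.isMultiplyPretransitive_of_le (n := Nat.card α - 2) ?_ ?_
    · rw [Nat.card_eq_fintype_card]; omega
    · exact Nat.sub_le _ _
  rw [MulAction.is_two_pretransitive_iff] at h2
  exact h2 hab hcd

end

theorem good_alt (n : ℕ) : n ≤ 11 → ∀ (α : Type) [Fintype α] [DecidableEq α],
    Fintype.card α = n → Good (alternatingGroup α) := by
  induction n using Nat.strong_induction_on with
  | _ n ih =>
    intro hn α _ _ hα
    rcases Nat.lt_or_ge n 6 with h6 | h6
    · -- small order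
      intro a b hab
      apply fac_small hab
      by_contra hcon
      push Not at hcon
      have h1 : 12 * 12 ≤ a * b := Nat.mul_le_mul hcon.1 hcon.2
      have h2 : Nat.card (alternatingGroup α) ≤ 120 := by
        have e1 : Nat.card (alternatingGroup α) ≤ Nat.card (Perm α) :=
          Nat.card_le_card_of_injective _ (alternatingGroup α).subtype_injective
        have e2 : Nat.card (Perm α) = n.factorial := by
          rw [Nat.card_eq_fintype_card, Fintype.card_perm, hα]
        have e3 : n.factorial ≤ Nat.factorial 5 := Nat.factorial_le (by omega)
        have e4 : Nat.factorial 5 = 120 := by decide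
        omega
      omega
    · have hnt : Nontrivial α := Fintype.one_lt_card_iff_nontrivial.1 (by omega)
      have hcard : Nat.card (alternatingGroup α) = n.factorial / 2 := by
        rw [nat_card_alternatingGroup, Nat.card_eq_fintype_card, hα]
      obtain ⟨x⟩ : Nonempty α := inferInstance
      obtain ⟨x', hx'⟩ := exists_ne x
      have gK : Good (MulAction.stabilizer (alternatingGroup α) x) := by
        rw [stab_one]
        refine good_range _ (ih (n - 1) (by omega) (by omega) _ ?_)
        rw [Fintype.card_coe, Finset.card_erase_of_mem (Finset.mem_univ _), Finset.card_univ, hα]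
      have gD : Good (MulAction.stabilizer (alternatingGroup α) x ⊓
          MulAction.stabilizer (alternatingGroup α) x' : Subgroup (alternatingGroup α)) := by
        rw [stab_two]
        refine good_range _ (ih (n - 2) (by omega) (by omega) _ ?_)
        rw [Fintype.card_coe, Finset.card_erase_of_mem
          (Finset.mem_erase.2 ⟨hx', Finset.mem_univ _⟩),
          Finset.card_erase_of_mem (Finset.mem_univ _), Finset.card_univ, hα]
        omega
      have hidx := alt_index (α := α) (by omega) x
      have h2t := alt_two_trans (α := α) (by omega)
      have hnc : Nat.card α = n := by rw [Nat.card_eq_fintype_card, hα]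
      rw [hα] at hidx
      interval_cases n
      · exact good_of_two_trans (r := 3) (k := 1) (q := 5) (e := 1) h2t (by norm_num)
          (by norm_num) (by norm_num) hnc (by norm_num) (by norm_num) (by rw [hcard]; decide)
          (by rw [hcard]; decide) x x' hx'.symm gK gD
      · exact good_of_index _ gK (q := 7) (e := 1) (by norm_num) hidx (by rw [hcard]; decide)
      · exact good_of_index _ gK (q := 2) (e := 3) (by norm_num) hidx (by rw [hcard]; decide)
      · exact good_of_index _ gK (q := 3) (e := 2) (by norm_num) hidx (by rw [hcard]; decide)
      · exact good_of_two_trans (r := 5) (k := 1) (q := 3) (e := 2) h2t (by norm_num)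
          (by norm_num) (by norm_num) hnc (by norm_num) (by norm_num) (by rw [hcard]; decide)
          (by rw [hcard]; decide) x x' hx'.symm gK gD
      · exact good_of_index _ gK (q := 11) (e := 1) (by norm_num) hidx (by rw [hcard]; decide)

theorem good_perm (α : Type) [Fintype α] [DecidableEq α] (h : Fintype.card α ≤ 11) :
    Good (Perm α) := by
  rcases subsingleton_or_nontrivial α with hs | hs
  · intro a b hab
    apply fac_small hab
    have : Nat.card (Perm α) = 1 := by
      rw [Nat.card_eq_one_iff_unique]
      exact ⟨inferInstance, inferInstance⟩
    rw [this] at hab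
    left
    have := Nat.eq_one_of_mul_eq_one_right hab
    omega
  · refine good_of_index (alternatingGroup α) (good_alt _ h α rfl) Nat.prime_two (e := 1) ?_ ?_
    · rw [pow_one]
      exact alternatingGroup.index_eq_two
    · rw [← two_mul_nat_card_alternatingGroup]
      exact ⟨Nat.card (alternatingGroup α), by norm_num⟩

end Pool.Agent.H39.TwoCosets
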