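import Mathlib
import Pool.Agent.H39.TwoCosets.Cor

set_option autoImplicit false

open scoped Pointwise LinearAlgebra.Projectivization
open Matrix

namespace Pool.Agent.H39.TwoCosets

variable (p : ℕ) [Fact p.Prime]

abbrev SL := Matrix.SpecialLinearGroup (Fin 2) (ZMod p)
abbrev PSL := Matrix.ProjectiveSpecialLinearGroup (Fin 2) (ZMod p)

variable {p}

theorem det_low {g : SL p} (h : g 1 0 = 0) : g 0 0 * g 1 1 = 1 := by
  have := g.det_coe
  rw [Matrix.det_fin_two] at this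
  rw [h, mul_zero, sub_zero] at this
  exact this

theorem mul00 (g k : SL p) : (g * k) 0 0 = g 0 0 * k 0 0 + g 0 1 * k 1 0 := by
  simp [Matrix.SpecialLinearGroup.coe_mul, Matrix.mul_apply, Fin.sum_univ_two]

theorem mul10 (g k : SL p) : (g * k) 1 0 = g 1 0 * k 0 0 + g 1 1 * k 1 0 := by
  simp [Matrix.SpecialLinearGroup.coe_mul, Matrix.mul_apply, Fin.sum_univ_two]

theorem mul01 (g k : SL p) : (g * k) 0 1 = g 0 0 * k 0 1 + g 0 1 * k 1 1 := by
  simp [Matrix.SpecialLinearGroup.coe_mul, Matrix.mul_apply, Fin.sum_univ_two]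

theorem inv00 (g : SL p) : (g⁻¹) 0 0 = g 1 1 := by
  simp [Matrix.SpecialLinearGroup.coe_inv, Matrix.adjugate_fin_two]

theorem inv10 (g : SL p) : (g⁻¹) 1 0 = - g 1 0 := by
  simp [Matrix.SpecialLinearGroup.coe_inv, Matrix.adjugate_fin_two]

theorem inv01 (g : SL p) : (g⁻¹) 0 1 = - g 0 1 := by
  simp [Matrix.SpecialLinearGroup.coe_inv, Matrix.adjugate_fin_two]

/-- upper triangular matrices with upper left entry in `C` -/
def Bc (C : Subgroup (ZMod p)ˣ) : Subgroup (SL p) where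
  carrier := {g | g 1 0 = 0 ∧ ∃ u ∈ C, (u : ZMod p) = g 0 0}
  mul_mem' := by
    rintro a b ⟨ha, u, hu, hua⟩ ⟨hb, v, hv, hvb⟩
    refine ⟨by rw [mul10, ha, hb]; ring, u * v, C.mul_mem hu hv, ?_⟩
    rw [mul00, hb, Units.val_mul, hua, hvb]; ring
  one_mem' := ⟨by simp, 1, C.one_mem, by simp⟩
  inv_mem' := by
    rintro a ⟨ha, u, hu, hua⟩
    refine ⟨by rw [inv10, ha, neg_zero], u⁻¹, C.inv_mem hu, ?_⟩
    rw [inv00]
    have := det_low ha
    rw [← hua] at this
    exact Units.inv_eq_of_mul_eq_one_right this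

/-- diagonal matrices with upper left entry in `C` -/
def Tc (C : Subgroup (ZMod p)ˣ) : Subgroup (SL p) where
  carrier := {g | g ∈ Bc C ∧ g 0 1 = 0}
  mul_mem' := by
    rintro a b ⟨ha, ha'⟩ ⟨hb, hb'⟩
    exact ⟨(Bc C).mul_mem ha hb, by rw [mul01, ha', hb']; ring⟩
  one_mem' := ⟨(Bc C).one_mem, by simp⟩
  inv_mem' := by
    rintro a ⟨ha, ha'⟩
    exact ⟨(Bc C).inv_mem ha, by rw [inv01, ha', neg_zero]⟩

theorem ext_low {g k : SL p} (hg : g 1 0 = 0) (hk : k 1 0 = 0) (h0 : g 0 0 = k 0 0)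
    (h1 : g 0 1 = k 0 1) : g = k := by
  have e1 := det_low hg
  have e2 := det_low hk
  have hne : g 0 0 ≠ 0 := fun h => by rw [h, zero_mul] at e1; exact zero_ne_one e1
  have h11 : g 1 1 = k 1 1 := by
    apply mul_left_cancel₀ hne
    rw [e1, h0, e2]
  ext i j
  fin_cases i <;> fin_cases j
  · exact h0
  · exact h1
  · exact hg.trans hk.symm
  · exact h11

/-- the matrix with given diagonal and upper right entry -/
def mkU (u : (ZMod p)ˣ) (b : ZMod p) : SL p :=
  ⟨!![(u : ZMod p), b; 0, ((u⁻¹ : (ZMod p)ˣ) : ZMod p)], by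
    rw [Matrix.det_fin_two_of, mul_zero, sub_zero, Units.mul_inv]⟩

theorem mkU00 (u : (ZMod p)ˣ) (b : ZMod p) : (mkU u b) 0 0 = u := rfl

theorem mkU01 (u : (ZMod p)ˣ) (b : ZMod p) : (mkU u b) 0 1 = b := rfl

theorem mkU10 (u : (ZMod p)ˣ) (b : ZMod p) : (mkU u b) 1 0 = 0 := rfl

theorem card_Bc (C : Subgroup (ZMod p)ˣ) : Nat.card (Bc C) = Nat.card C * p := by
  have h : Nat.card (C × ZMod p) = Nat.card (Bc C) := by
    apply Nat.card_eq_of_bijective
      (fun x : C × ZMod p => (⟨mkU x.1 x.2, ⟨mkU10 _ _, x.1, x.1.2, (mkU00 _ _).symm⟩⟩ : Bc C))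
    constructor
    · rintro ⟨u, b⟩ ⟨v, c⟩ h
      have h1 : mkU (u : (ZMod p)ˣ) b = mkU (v : (ZMod p)ˣ) c := congrArg Subtype.val h
      have h2 := congrArg (fun g : SL p => g 0 0) h1
      have h3 := congrArg (fun g : SL p => g 0 1) h1
      simp only [mkU00, mkU01] at h2 h3
      ext
      · exact h2
      · exact h3
    · rintro ⟨g, hg, u, hu, hug⟩
      refine ⟨(⟨u, hu⟩, g 0 1), Subtype.ext ?_⟩
      exact ext_low (mkU10 _ _) hg ((mkU00 _ _).trans hug) (mkU01 _ _)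
  rw [← h, Nat.card_prod, Nat.card_zmod]

theorem card_Tc (C : Subgroup (ZMod p)ˣ) : Nat.card (Tc C) = Nat.card C := by
  symm
  apply Nat.card_eq_of_bijective
    (fun x : C => (⟨mkU x 0, ⟨⟨mkU10 _ _, x, x.2, (mkU00 _ _).symm⟩, mkU01 _ _⟩⟩ : Tc C))
  constructor
  · rintro u v h
    have h1 : mkU (u : (ZMod p)ˣ) 0 = mkU (v : (ZMod p)ˣ) 0 := congrArg Subtype.val h
    have h2 := congrArg (fun g : SL p => g 0 0) h1
    simp only [mkU00] at h2
    ext
    exact h2
  · rintro ⟨g, ⟨hg, u, hu, hug⟩, hg'⟩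
    refine ⟨⟨u, hu⟩, Subtype.ext ?_⟩
    exact ext_low (mkU10 _ _) hg ((mkU00 _ _).trans hug) ((mkU01 _ _).trans hg'.symm)

theorem mem_center {g : SL p} (hg : g ∈ Subgroup.center (SL p)) :
    g 1 0 = 0 ∧ g 0 1 = 0 ∧ (g 0 0) ^ 2 = 1 := by
  rw [Matrix.SpecialLinearGroup.mem_center_iff] at hg
  obtain ⟨r, hr, hg⟩ := hg
  have e : ∀ i j, g i j = (Matrix.scalar (Fin 2) r) i j := fun i j => by rw [hg]
  refine ⟨by rw [e]; simp, by rw [e]; simp, ?_⟩
  rw [e]
  simpa using hr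

theorem center_le_Bc (C : Subgroup (ZMod p)ˣ) (h1 : (-1 : (ZMod p)ˣ) ∈ C) :
    Subgroup.center (SL p) ≤ Tc C := by
  intro g hg
  obtain ⟨h10, h01, hsq⟩ := mem_center hg
  have hor : g 0 0 = 1 ∨ g 0 0 = -1 := by
    have : (g 0 0 - 1) * (g 0 0 + 1) = 0 := by linear_combination hsq
    rcases mul_eq_zero.1 this with h | h
    · left; linear_combination h
    · right; linear_combination h
  rcases hor with h | h
  · exact ⟨⟨h10, 1, C.one_mem, by rw [h]; simp⟩, h01⟩
  · exact ⟨⟨h10, -1, h1, by rw [h]; simp⟩, h01⟩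

theorem Tc_le_Bc (C : Subgroup (ZMod p)ˣ) : Tc C ≤ Bc C := fun _ h => h.1

theorem Bc_mono {C D : Subgroup (ZMod p)ˣ} (h : C ≤ D) : Bc C ≤ Bc D := by
  rintro g ⟨hg, u, hu, hug⟩
  exact ⟨hg, u, h hu, hug⟩

theorem card_center (hp : p ≠ 2) : Nat.card (Subgroup.center (SL p)) = 2 := by
  have e := (Matrix.SpecialLinearGroup.center_equiv_rootsOfUnity (n := Fin 2) (R := ZMod p))
  rw [Nat.card_congr e.toEquiv]
  have hne : (-1 : ZMod p) ≠ 1 := by
    have : Fact (2 < p) := ⟨lt_of_le_of_ne (Fact.out : p.Prime).two_le hp.symm⟩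
    exact ZMod.neg_one_ne_one
  have hprim : IsPrimitiveRoot (-1 : ZMod p) 2 := by
    rw [IsPrimitiveRoot.iff (by norm_num)]
    refine ⟨by norm_num, fun l hl hl2 => ?_⟩
    interval_cases l
    simpa using hne
  have := hprim.card_rootsOfUnity
  simpa [Nat.card_eq_fintype_card] using this

/-- index of the stabilizer of a point of the projective line -/
theorem index_Bc : (Bc (⊤ : Subgroup (ZMod p)ˣ)).index = p + 1 := by
  have hv : (![1, 0] : Fin 2 → ZMod p) ≠ 0 := by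
    intro h
    have := congrFun h 0
    simp at this
  let x0 : ℙ (ZMod p) (Fin 2 → ZMod p) := Projectivization.mk (ZMod p) ![1, 0] hv
  have hstab : MulAction.stabilizer (SL p) x0 = Bc (⊤ : Subgroup (ZMod p)ˣ) := by
    ext g
    rw [MulAction.mem_stabilizer_iff, Projectivization.smul_mk, Projectivization.mk_eq_mk_iff']
    have e : g • (![1, 0] : Fin 2 → ZMod p) = ![g 0 0, g 1 0] := by
      change g.1 *ᵥ ![1, 0] = _
      ext i
      fin_cases i <;> simp [Matrix.mulVec, dotProduct, Fin.sum_univ_two]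
    rw [e]
    constructor
    · rintro ⟨a, ha⟩
      have h0 := congrFun ha 0
      have h1 := congrFun ha 1
      simp only [Pi.smul_apply, Matrix.cons_val_zero, Matrix.cons_val_one, smul_eq_mul, mul_one,
        mul_zero] at h0 h1
      have h10 : g 1 0 = 0 := h1.symm
      have hd := det_low h10
      exact ⟨h10, Units.mkOfMulEqOne _ _ hd, trivial, rfl⟩
    · rintro ⟨h10, -⟩
      refine ⟨g 0 0, ?_⟩
      ext i
      fin_cases i
      · simp
      · simp [h10]
  rw [← hstab, MulAction.index_stabilizer_of_transitive]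
  rw [Projectivization.card_of_finrank_two]
  · simp
  · simp

end Pool.Agent.H39.TwoCosets
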