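import Mathlib
import Pool.Agent.H39.TwoCosets.PSL

set_option autoImplicit false

open scoped Pointwise
open Matrix

namespace Pool.Agent.H39.TwoCosets

variable {p : ℕ} [Fact p.Prime]

/-- the quotient map -/
abbrev pr (p : ℕ) : SL p →* PSL p := QuotientGroup.mk' (Subgroup.center (SL p))

theorem pr_index (M : Subgroup (SL p)) (hM : Subgroup.center (SL p) ≤ M) :
    (M.map (pr p)).index = M.index :=
  Subgroup.index_map_eq _ (QuotientGroup.mk'_surjective _) (by rwa [QuotientGroup.ker_mk'])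

theorem pr_card (hp : p ≠ 2) (M : Subgroup (SL p)) (hM : Subgroup.center (SL p) ≤ M) :
    2 * Nat.card (M.map (pr p)) = Nat.card M := by
  have h1 := (M.map (pr p)).index_mul_card
  have h2 := M.index_mul_card
  have h3 := Subgroup.card_eq_card_quotient_mul_card_subgroup (Subgroup.center (SL p))
  rw [card_center hp] at h3
  rw [pr_index M hM] at h1
  have hpos : 0 < M.index := Nat.pos_of_ne_zero Subgroup.index_ne_zero_of_finite
  apply Nat.eq_of_mul_eq_mul_left hpos
  rw [h2, h3]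
  change _ = Nat.card (PSL p) * 2
  rw [← h1]
  ring

/-- subgroups of the cyclic group of units -/
theorem exists_units (m : ℕ) (hm : m ∣ p - 1) :
    ∃ C : Subgroup (ZMod p)ˣ, Nat.card C = m := by
  obtain ⟨g, hg⟩ := IsCyclic.exists_generator (α := (ZMod p)ˣ)
  have ho : orderOf g = p - 1 := by
    rw [orderOf_eq_card_of_forall_mem_zpowers hg, Nat.card_eq_fintype_card, ZMod.card_units]
  have hp1 : 0 < p - 1 := by
    have := (Fact.out : p.Prime).two_le
    omega
  obtain ⟨k, hk⟩ := hm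
  have hk0 : k ≠ 0 := fun h => by rw [h, mul_zero] at hk; omega
  refine ⟨Subgroup.zpowers (g ^ k), ?_⟩
  rw [Nat.card_zpowers, orderOf_pow_of_dvd hk0 (by rw [ho, hk]; exact ⟨m, by ring⟩), ho, hk]
  exact Nat.mul_div_cancel _ (Nat.pos_of_ne_zero hk0)

theorem neg_one_mem (C : Subgroup (ZMod p)ˣ) (h : 2 ∣ Nat.card C) : (-1 : (ZMod p)ˣ) ∈ C := by
  have : Fact (Nat.Prime 2) := ⟨Nat.prime_two⟩
  obtain ⟨c, hc⟩ := exists_prime_orderOf_dvd_card' 2 h
  have h1 : (c : (ZMod p)ˣ) ^ 2 = 1 := by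
    have := pow_orderOf_eq_one c
    rw [hc] at this
    exact_mod_cast congrArg Subtype.val this
  have hne : (c : (ZMod p)ˣ) ≠ 1 := by
    intro h
    have : c = 1 := Subtype.ext h
    rw [this, orderOf_one] at hc
    norm_num at hc
  have h2 : (((c : (ZMod p)ˣ)) : ZMod p) ^ 2 = 1 := by
    rw [← Units.val_pow_eq_pow_val, h1, Units.val_one]
  have hor : (((c : (ZMod p)ˣ)) : ZMod p) = 1 ∨ (((c : (ZMod p)ˣ)) : ZMod p) = -1 := by
    have : ((((c : (ZMod p)ˣ)) : ZMod p) - 1) * ((((c : (ZMod p)ˣ)) : ZMod p) + 1) = 0 := by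
      linear_combination h2
    rcases mul_eq_zero.1 this with h | h
    · left; linear_combination h
    · right; linear_combination h
  rcases hor with h | h
  · exact absurd (Units.ext h) hne
  · have : (c : (ZMod p)ˣ) = -1 := by
      apply Units.ext
      rw [h]; simp
    rw [← this]
    exact c.2

/-- `PSL(2,p)` -/
theorem psl_fac (hp : p ≠ 2) (hidx : ∀ c d : ℕ, c * d = p + 1 → c ≤ 2 ∨ d ≤ 2) {a b : ℕ}
    (hab : a * b = Nat.card (PSL p)) : Fac (PSL p) a b := by
  have hpr : p.Prime := Fact.out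
  have hodd : Odd p := hpr.odd_of_ne_two hp
  obtain ⟨n, hn⟩ := hodd
  have hn1 : p - 1 = 2 * n := by omega
  have hn0 : 0 < n := by
    have := hpr.two_le
    omega
  have htop : Nat.card (⊤ : Subgroup (ZMod p)ˣ) = 2 * n := by
    rw [Subgroup.card_top, Nat.card_eq_fintype_card, ZMod.card_units, hn1]
  have hcen : ∀ C : Subgroup (ZMod p)ˣ, 2 ∣ Nat.card C → Subgroup.center (SL p) ≤ Tc C :=
    fun C hC => center_le_Bc C (neg_one_mem C hC)
  have hcenB : ∀ C : Subgroup (ZMod p)ˣ, 2 ∣ Nat.card C → Subgroup.center (SL p) ≤ Bc C :=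
    fun C hC => (hcen C hC).trans (Tc_le_Bc C)
  have hBtop := hcenB ⊤ (by rw [htop]; exact ⟨n, rfl⟩)
  have hKc : Nat.card ((Bc (⊤ : Subgroup (ZMod p)ˣ)).map (pr p)) = n * p := by
    have := pr_card hp _ hBtop
    rw [card_Bc, htop] at this
    have h2 : (0 : ℕ) < 2 := by norm_num
    apply Nat.eq_of_mul_eq_mul_left h2
    rw [this]; ring
  apply fac_index ((Bc (⊤ : Subgroup (ZMod p)ˣ)).map (pr p))
  · intro d hd
    rw [hKc] at hd
    by_cases hpd : p ∣ d
    · obtain ⟨f, rfl⟩ := hpd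
      have hf : f ∣ n := by
        rw [mul_comm] at hd
        exact Nat.dvd_of_mul_dvd_mul_right hpr.pos hd
      obtain ⟨C, hC⟩ := exists_units (p := p) (2 * f) (by rw [hn1]; exact Nat.mul_dvd_mul_left 2 hf)
      refine ⟨(Bc C).map (pr p), Subgroup.map_mono (Bc_mono le_top), ?_⟩
      have := pr_card hp _ (hcenB C (by rw [hC]; exact ⟨f, rfl⟩))
      rw [card_Bc, hC] at this
      have h2 : (0 : ℕ) < 2 := by norm_num
      apply Nat.eq_of_mul_eq_mul_left h2
      rw [this]; ring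
    · have hf : d ∣ n := by
        have hcop : Nat.Coprime d p := ((Nat.Prime.coprime_iff_not_dvd hpr).2 hpd).symm
        exact hcop.dvd_of_dvd_mul_right hd
      obtain ⟨C, hC⟩ := exists_units (p := p) (2 * d) (by rw [hn1]; exact Nat.mul_dvd_mul_left 2 hf)
      refine ⟨(Tc C).map (pr p), Subgroup.map_mono ((Tc_le_Bc C).trans (Bc_mono le_top)), ?_⟩
      have := pr_card hp _ (hcen C (by rw [hC]; exact ⟨d, rfl⟩))
      rw [card_Tc, hC] at this
      omega
  · intro c d hcd
    rw [pr_index _ hBtop, index_Bc] at hcd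
    exact hidx c d hcd
  · exact hab

end Pool.Agent.H39.TwoCosets
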